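import Pool.Agent.H.MP_c3d4b2_gt.Frame

namespace Pool.Agent.H.MP_c3d4b2_gt

open Matrix MeasureTheory Pool.Agent.H.MP_44343f_gt
open Pool.Agent.H.MP_f5d73e_gt (dot_nonneg hd_q hd_a hd_comp dot_bv sq_le_dot abs_le_r rp)

noncomputable def W (q : ℝ) : ℝ := (√(1 + q))⁻¹

lemma W_pos {q : ℝ} (hq : 0 ≤ q) : 0 < W q := by unfold W; positivity

lemma W_sq {q : ℝ} (hq : 0 ≤ q) : W q ^ 2 * (1 + q) = 1 := by
  unfold W; rw [inv_pow, Real.sq_sqrt (by positivity)]; field_simp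

lemma W_le {q : ℝ} (hq : 0 ≤ q) : W q ≤ 1 := by
  have h1 := W_sq hq
  have h2 := W_pos hq
  nlinarith [mul_nonneg (sq_nonneg (W q)) hq]

lemma hd_W {q : ℝ} (hq : 0 ≤ q) : HasDerivAt W (-(W q ^ 3) / 2) q := by
  have h1 : (0 : ℝ) < 1 + q := by positivity
  have h2 := Real.sqrt_pos.2 h1
  have := (((hasDerivAt_id q).const_add 1).sqrt h1.ne').inv h2.ne'
  refine HasDerivAt.congr_deriv this ?_
  simp only [id, W]; field_simp

lemma bd_add {a b c d : ℝ} (h1 : |a| ≤ c) (h2 : |b| ≤ d) : |a + b| ≤ c + d :=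
  (abs_add_le _ _).trans (add_le_add h1 h2)
lemma bd_sub {a b c d : ℝ} (h1 : |a| ≤ c) (h2 : |b| ≤ d) : |a - b| ≤ c + d :=
  (abs_sub _ _).trans (add_le_add h1 h2)
lemma bd_mul {a b c d : ℝ} (h1 : |a| ≤ c) (h2 : |b| ≤ d) : |a * b| ≤ c * d := by
  rw [abs_mul]; exact mul_le_mul h1 h2 (abs_nonneg _) ((abs_nonneg _).trans h1)
lemma bd_two : |(2 : ℝ)| ≤ 2 := by norm_num

variable (P : Prof)

lemma Prof.g_apply (x : V 6) (i j : Fin 6) : P.g x i j = (1 : Matrix (Fin 6) (Fin 6) ℝ) i j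
    + P.a0 (x ⬝ᵥ x) * (x i * x j) + P.c0 (x ⬝ᵥ x) * (J x i * J x j) := by
  simp [Prof.g, vecMulVec_apply]

lemma Prof.af (C : ℝ) (h : ∀ q, 0 ≤ q → |P.a0 q| ≤ C * W q ^ 3 ∧ |P.a1 q| ≤ C * W q ^ 5 ∧
    |P.a2 q| ≤ C * W q ^ 7 ∧ |P.c0 q| ≤ C * W q ^ 3 ∧ |P.c1 q| ≤ C * W q ^ 5 ∧
    |P.c2 q| ≤ C * W q ^ 7) : AF P.g 1 := by
  refine ⟨100 * C, 1, fun x hx i j k l => ?_⟩
  have hq := dot_nonneg x
  obtain ⟨a0, a1, a2, c0, c1, c2⟩ := h _ hq
  have hW := W_pos hq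
  have hC : 0 ≤ C := by
    have := (abs_nonneg _).trans a0
    exact nonneg_of_mul_nonneg_left this (by positivity)
  obtain ⟨r, hr⟩ : ∃ r, r = √(x ⬝ᵥ x) := ⟨_, rfl⟩
  have hrq : x ⬝ᵥ x = r ^ 2 := by rw [hr, Real.sq_sqrt hq]
  have hk : ∀ i, |x i| ≤ r := fun i => hr ▸ abs_le_r x i
  have hl : ∀ i, |J x i| ≤ r := fun i => by have := abs_le_r (J x) i; rwa [JJ, ← hr] at this
  have hb : ∀ i j : Fin 6, |bv i j| ≤ (1 : ℝ) := fun i j => by
    simp only [bv, Pi.single_apply]; split_ifs <;> simp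
  have hJ : ∀ i j : Fin 6, |J (bv i) j| ≤ (1 : ℝ) := fun i j => by
    have := abs_le_r (J (bv i)) j
    rwa [JJ, dot_bv, show bv i i = (1 : ℝ) by simp [bv], Real.sqrt_one] at this
  rw [← hr] at hx ⊢
  have hr0 : 0 < r := by linarith
  obtain ⟨w, hw⟩ : ∃ w, w = r⁻¹ := ⟨_, rfl⟩
  have hw0 : 0 < w := by rw [hw]; positivity
  have hwr : w * r = 1 := by rw [hw]; field_simp
  have hWw : W (x ⬝ᵥ x) ≤ w := by
    rw [hw, W]
    exact inv_anti₀ hr0 (Real.le_sqrt_of_sq_le (by linarith))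
  have b3 : C * W (x ⬝ᵥ x) ^ 3 ≤ C * w ^ 3 := by gcongr
  have b5 : C * W (x ⬝ᵥ x) ^ 5 ≤ C * w ^ 5 := by gcongr
  have b7 : C * W (x ⬝ᵥ x) ^ 7 ≤ C * w ^ 7 := by gcongr
  replace a0 := a0.trans b3
  replace a1 := a1.trans b5
  replace a2 := a2.trans b7
  replace c0 := c0.trans b3
  replace c1 := c1.trans b5
  replace c2 := c2.trans b7
  have e1 : r ^ (-(1 : ℝ)) = w := by rw [hw, Real.rpow_neg_one]
  have e2 : r ^ (-(1 : ℝ) - 1) = w ^ 2 := by rw [hw, ← rp hr0 2]; norm_num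
  have e3 : r ^ (-(1 : ℝ) - 2) = w ^ 3 := by rw [hw, ← rp hr0 3]; norm_num
  have hr' : r = w⁻¹ := by rw [hw, inv_inv]
  rw [e1, e2, e3]
  clear b3 b5 b7
  refine ⟨?_, ?_, ?_⟩
  · rw [P.g_apply, add_assoc, add_sub_cancel_left]
    refine (bd_add (bd_mul a0 (bd_mul (hk _) (hk _))) (bd_mul c0 (bd_mul (hl _) (hl _)))).trans ?_
    rw [hr']; field_simp; linarith
  · rw [P.jet.ld_entry]
    simp only [Prof.dg, dot_bv]
    apply le_trans
    · repeat' with_reducible first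
        | apply bd_add | apply bd_mul | exact bd_two | exact a0 | exact a1 | exact c0 | exact c1
        | apply hk | apply hl | apply hb | apply hJ
    rw [hr']; field_simp; linarith
  · have key : ∀ i j, |P.ddL x (bv l) (bv k) (bv i) (bv j)| ≤ 50 * C * w ^ 3 := by
      intro i j
      simp only [Prof.ddL, dot_bv]
      apply le_trans
      · repeat' with_reducible first
          | apply bd_add | apply bd_sub | apply bd_mul | exact bd_two | exact a0 | exact a1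
          | exact a2 | exact c0 | exact c1 | exact c2 | apply hk | apply hl | apply hb | apply hJ
      rw [hr']; field_simp; linarith
    simp only [P.jet.ld_entry, P.jet.dg_split]
    have := ((P.hd_Lam x (bv l) (bv k) (bv i) (bv j)).add (P.hd_Lam x (bv l) (bv k) (bv j) (bv i))).deriv
    rw [lineDeriv]
    refine (this ▸ bd_add (key i j) (key j i)).trans ?_
    linarith

lemma Prof.metric (ha : ContDiff ℝ (⊤ : ℕ∞) fun x : V 6 => P.a0 (x ⬝ᵥ x))
    (hc : ContDiff ℝ (⊤ : ℕ∞) fun x : V 6 => P.c0 (x ⬝ᵥ x)) : IsMetric P.g := by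
  constructor
  · intro i j
    simp only [P.g_apply]
    have hJ : ∀ i, ContDiff ℝ (⊤ : ℕ∞) fun x : V 6 => J x i := by
      intro i; fin_cases i <;> simp [J] <;> fun_prop
    exact (contDiff_const.add (ha.mul (by fun_prop))).add (hc.mul ((hJ i).mul (hJ j)))
  · intro x
    rw [Matrix.posDef_iff_dotProduct_mulVec]
    constructor
    · ext i j
      simp [P.g_apply, Matrix.one_apply, eq_comm, mul_comm]
    · intro v hv
      have : star v ⬝ᵥ P.g x *ᵥ v = ip (P.g x) v v := by simp [ip]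
      rw [this, P.ip_g]
      have h1 := mul_nonneg (P.pa _ (dot_nonneg x)) (mul_self_nonneg (x ⬝ᵥ v))
      have h2 := mul_nonneg (P.pc _ (dot_nonneg x)) (mul_self_nonneg (J x ⬝ᵥ v))
      linarith [dot_pos hv]

lemma Prof.ge (x v : V 6) : v ⬝ᵥ v ≤ ip (P.g x) v v := by
  rw [P.ip_g]
  have h1 := mul_nonneg (P.pa _ (dot_nonneg x)) (mul_self_nonneg (x ⬝ᵥ v))
  have h2 := mul_nonneg (P.pc _ (dot_nonneg x)) (mul_self_nonneg (J x ⬝ᵥ v))
  linarith

lemma Prof.complete (h : IsMetric P.g) : Complete P.g := by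
  refine complete_of_ge P.g (fun i j => (h.1 i j).continuous) fun x v => ?_
  apply norm_le_of_sq
  intro i
  linarith [sq_le_dot v i, dot_nonneg v, P.ge x v]

lemma W_smooth : ContDiff ℝ (⊤ : ℕ∞) fun x : V 6 => W (x ⬝ᵥ x) := by
  have h : ∀ x : V 6, 0 < 1 + x ⬝ᵥ x := fun x => by have := dot_nonneg x; positivity
  refine ContDiff.inv (ContDiff.sqrt ?_ fun x => (h x).ne') fun x => (Real.sqrt_pos.2 (h x)).ne'
  simp only [dotProduct]; fun_prop

lemma Prof.det_g (x : V 6) : (P.g x).det = P.mu (x ⬝ᵥ x) * P.la (x ⬝ᵥ x) := by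
  have : P.g x = (1 + vecMulVec (P.a0 (x ⬝ᵥ x) • x) x) *
      (1 + vecMulVec (P.c0 (x ⬝ᵥ x) • J x) (J x)) := by
    simp only [Prof.g, add_mul, mul_add, one_mul, mul_one, Matrix.vecMulVec_mul_vecMulVec,
      J_self', smul_zero, zero_smul, Matrix.vecMulVec_zero, add_zero,
      Matrix.smul_vecMulVec, Matrix.smul_mul, Matrix.mul_smul]
  rw [this, Matrix.det_mul, Matrix.vecMulVec_eq Unit, Matrix.vecMulVec_eq Unit,
    Matrix.det_one_add_replicateCol_mul_replicateRow, Matrix.det_one_add_replicateCol_mul_replicateRow,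
    dotProduct_smul, dotProduct_smul, JJ]
  rfl

lemma integrable_W : Integrable (fun x : V 6 => W (x ⬝ᵥ x) ^ 7) := by
  have h := integrable_rpow_neg_one_add_norm_sq (E := V 6) (μ := volume) (r := 7) (by simp; norm_num)
  refine h.mono' (W_smooth.continuous.pow 7).aestronglyMeasurable
    (Filter.Eventually.of_forall fun x => ?_)
  have hq := dot_nonneg x
  have h1 : ‖x‖ ^ 2 ≤ x ⬝ᵥ x := by
    have : ‖x‖ ≤ √(x ⬝ᵥ x) := (pi_norm_le_iff_of_nonneg (by positivity)).2 fun i => abs_le_r x i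
    calc ‖x‖ ^ 2 ≤ √(x ⬝ᵥ x) ^ 2 := by gcongr
      _ = _ := Real.sq_sqrt hq
  rw [Real.norm_of_nonneg (pow_pos (W_pos hq) 7).le]
  have : W (x ⬝ᵥ x) ^ 7 = (1 + x ⬝ᵥ x) ^ (-7 / 2 : ℝ) := by
    rw [W, Real.sqrt_eq_rpow, ← Real.rpow_neg (by positivity), ← Real.rpow_natCast,
      ← Real.rpow_mul (by positivity)]
    norm_num
  rw [this]
  exact Real.rpow_le_rpow_of_nonpos (by positivity) (by linarith) (by norm_num)

lemma W_tendsto : Filter.Tendsto (fun r : ℝ => W (r ^ 2)) Filter.atTop (nhds 0) := by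
  refine Filter.Tendsto.inv_tendsto_atTop (Real.tendsto_sqrt_atTop.comp ?_)
  exact Filter.tendsto_atTop_add_const_left _ _ (Filter.tendsto_pow_atTop (by norm_num))

lemma sph_pos : 0 < (sphMeas 6).real Set.univ := by
  unfold sphMeas
  rw [Measure.real, Measure.toSphere_apply_univ]
  refine ENNReal.toReal_pos (mul_ne_zero (by simp) (Metric.measure_ball_pos _ _ one_pos).ne') ?_
  exact ENNReal.mul_ne_top (by simp) measure_ball_lt_top.ne

end Pool.Agent.H.MP_c3d4b2_gt
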