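import Pool.Agent.H.MP_c3d4b2_gt.Fam

namespace Pool.Agent.H.MP_c3d4b2_gt

open Matrix MeasureTheory Pool.Agent.H.MP_44343f_gt
open Pool.Agent.H.MP_f5d73e_gt (dot_nonneg hd_q hd_a hd_comp dot_bv sq_le_dot abs_le_r rp)

def KN {ι K : Type} [CommRing K] (s t : ι → ι → K) (i j k l : ι) : K :=
  s i k * t j l + s j l * t i k - s i l * t j k - s j k * t i l

def OM {ι K : Type} [CommRing K] (s t : ι → ι → K) (i j k l : ι) : K :=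
  KN s t i j k l + 2 * s i j * t k l + 2 * t i j * s k l

def pp (f u v : V 6) : ℝ := f ⬝ᵥ u * f ⬝ᵥ v
def rr (f u v : V 6) : ℝ := J f ⬝ᵥ u * J f ⬝ᵥ v
def sg (f u v : V 6) : ℝ := f ⬝ᵥ u * J f ⬝ᵥ v - J f ⬝ᵥ u * f ⬝ᵥ v
def hh (f u v : V 6) : ℝ := u ⬝ᵥ v - pp f u v - rr f u v
def ww (f u v : V 6) : ℝ := J u ⬝ᵥ v - sg f u v

variable (P : Prof)

def Prof.mu1 (q : ℝ) : ℝ := P.a1 q * q + P.a0 q
def Prof.la1 (q : ℝ) : ℝ := P.c1 q * q + P.c0 q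
def Prof.la2 (q : ℝ) : ℝ := P.c2 q * q + 2 * P.c1 q

noncomputable def Prof.kA (q : ℝ) : ℝ :=
  -(3 * P.la1 q + 2 * q * P.la2 q - q * P.la1 q ^ 2 * (P.la q)⁻¹)
    + P.mu1 q * (P.mu q)⁻¹ * (P.la q + q * P.la1 q)
noncomputable def Prof.kB (q : ℝ) : ℝ := P.mu1 q * (P.mu q)⁻¹
noncomputable def Prof.kC (q : ℝ) : ℝ :=
  (P.c0 q ^ 2 * q - P.c1 q * q + P.a0 q * P.la q ^ 2) * (P.mu q)⁻¹
noncomputable def Prof.kT (q : ℝ) : ℝ := P.a0 q * (P.mu q)⁻¹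

noncomputable def Prof.Rc (q : ℝ) (f X Y W Z : V 6) : ℝ :=
  P.kA q * KN (pp f) (rr f) X Y W Z + P.kB q * KN (pp f) (hh f) X Y W Z
    + P.kC q * KN (rr f) (hh f) X Y W Z + P.kT q / 2 * KN (hh f) (hh f) X Y W Z
    - P.c0 q / 2 * OM (ww f) (ww f) X Y W Z - P.la1 q * OM (sg f) (ww f) X Y W Z

lemma Prof.Rv_eq (ρ : ℝ) (f : V 6) (hf : f ⬝ᵥ f = 1) (X Y W Z : V 6) :
    ip (P.g (ρ • f)) (curv P.g (ρ • f) X Y Z) W = P.Rc (ρ ^ 2) f X Y W Z := by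
  have hq : (ρ • f) ⬝ᵥ (ρ • f) = ρ ^ 2 := by
    rw [smul_dotProduct, dotProduct_smul, hf]; simp [sq]
  have e1 := mul_inv_cancel₀ (P.mu_pos (sq_nonneg ρ)).ne'
  have e2 := mul_inv_cancel₀ (P.la_pos (sq_nonneg ρ)).ne'
  rw [P.jet.ip_curv P.hd_Lam]
  simp only [P.Lam_vec, P.g_inv, quad2, Prof.ddL, hq]
  simp only [J_smul, add_dotProduct, dotProduct_add, smul_dotProduct, dotProduct_smul,
    smul_eq_mul, JJ, hf, J_self, J_self', J_skew f X, J_skew f Y, J_skew f Z, J_skew f W,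
    J_skew' f X, J_skew' f Y, J_skew' f Z, J_skew' f W, dotProduct_comm X f,
    dotProduct_comm Y f, dotProduct_comm Z f, dotProduct_comm W f]
  simp only [Prof.Rc, Prof.kA, Prof.kB, Prof.kC, Prof.kT, KN, OM, pp, rr, sg, hh, ww,
    Prof.mu1, Prof.la1, Prof.la2, J_skew' X Y, J_skew' W Z, dotProduct_comm Y X, dotProduct_comm Z X,
    dotProduct_comm Z Y, dotProduct_comm W X, dotProduct_comm W Y, dotProduct_comm Z W]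
  generalize (P.mu (ρ ^ 2))⁻¹ = im at *
  generalize (P.la (ρ ^ 2))⁻¹ = il at *
  simp only [Prof.mu, Prof.la] at *
  generalize P.a0 (ρ ^ 2) = a0 at *
  generalize P.a1 (ρ ^ 2) = a1 at *
  generalize P.a2 (ρ ^ 2) = a2 at *
  generalize P.c0 (ρ ^ 2) = c0 at *
  generalize P.c1 (ρ ^ 2) = c1 at *
  generalize P.c2 (ρ ^ 2) = c2 at *
  have e1' : im = (1 + a0 * ρ ^ 2)⁻¹ := eq_inv_of_mul_eq_one_right e1
  have e2' : il = (1 + c0 * ρ ^ 2)⁻¹ := eq_inv_of_mul_eq_one_right e2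
  have n1 : 1 + a0 * ρ ^ 2 ≠ 0 := left_ne_zero_of_mul_eq_one e1
  have n2 : 1 + c0 * ρ ^ 2 ≠ 0 := left_ne_zero_of_mul_eq_one e2
  subst e1' e2'
  have n3 : 1 + ρ ^ 2 * a0 ≠ 0 := by rwa [mul_comm]
  have n4 : 1 + ρ ^ 2 * c0 ≠ 0 := by rwa [mul_comm]
  field_simp
  ring

end Pool.Agent.H.MP_c3d4b2_gt
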