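import Pool.Agent.H.MP_44343f_gt.Main

namespace Pool.Agent.H.MP_c3d4b2_gt

open Matrix MeasureTheory Pool.Agent.H.MP_44343f_gt

noncomputable def Rm {n : ℕ} (g : Met n) (x : V n) (i j k l : Fin n) : ℝ :=
  ip (g x) (curv g x (bv i) (bv j) (bv l)) (bv k)

noncomputable def Ric {n : ℕ} (g : Met n) (x : V n) (j l : Fin n) : ℝ :=
  ∑ i, ∑ k, (g x)⁻¹ i k * Rm g x i j k l

noncomputable def Scal {n : ℕ} (g : Met n) (x : V n) : ℝ :=
  ∑ j, ∑ l, (g x)⁻¹ j l * Ric g x j l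

noncomputable def Plow {n : ℕ} (g : Met n) (x : V n) (i j k l : Fin n) : ℝ :=
  Rm g x i j k l + Ric g x j k * g x i l - Ric g x j l * g x i k - Ric g x i k * g x j l
    + Ric g x i l * g x j k + 1 / 2 * Scal g x * (g x i k * g x j l - g x i l * g x j k)

noncomputable def Pup {n : ℕ} (g : Met n) (x : V n) (i j k l : Fin n) : ℝ :=
  ∑ a, ∑ b, ∑ c, ∑ d, (g x)⁻¹ i a * (g x)⁻¹ j b * (g x)⁻¹ k c * (g x)⁻¹ l d * Plow g x a b c d

noncomputable def L2 {n : ℕ} (g : Met n) (x : V n) : ℝ :=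
  ∑ i, ∑ j, ∑ k, ∑ l, Pup g x i j k l * Rm g x i j k l

noncomputable def sphMeas (n : ℕ) : Measure (Metric.sphere (0 : EuclideanSpace ℝ (Fin n)) 1) :=
  (volume : Measure (EuclideanSpace ℝ (Fin n))).toSphere

noncomputable def flux {n : ℕ} (g : Met n) (r : ℝ) : ℝ :=
  r ^ (n - 1) * ∫ θ, ∑ i, ∑ j, ∑ k, ∑ l, Pup g (r • θ.1.ofLp) i j k l *
    (lineDeriv ℝ (fun z => g z j k) (r • θ.1.ofLp) (bv l) * θ.1.ofLp i) ∂(sphMeas n)

def HasMass {n : ℕ} (g : Met n) (m : ℝ) : Prop :=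
  Filter.Tendsto (fun r => ((n - 4).factorial : ℝ) /
    (2 * (n - 1).factorial * (sphMeas n).real Set.univ) * flux g r) Filter.atTop (nhds m)

def AF {n : ℕ} (g : Met n) (τ : ℝ) : Prop :=
  ∃ C R : ℝ, ∀ x : V n, R ≤ √(x ⬝ᵥ x) → ∀ i j k l,
    |g x i j - (1 : Matrix (Fin n) (Fin n) ℝ) i j| ≤ C * √(x ⬝ᵥ x) ^ (-τ) ∧
    |lineDeriv ℝ (fun z => g z i j) x (bv k)| ≤ C * √(x ⬝ᵥ x) ^ (-τ - 1) ∧
    |lineDeriv ℝ (fun y => lineDeriv ℝ (fun z => g z i j) y (bv k)) x (bv l)|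
      ≤ C * √(x ⬝ᵥ x) ^ (-τ - 2)

lemma contr {ι κ : Type} [Fintype ι] [Fintype κ] (G : ι → ι → ℝ) (c : κ → ℝ) (f : κ → ι → ℝ)
    (hG : ∀ i j, G i j = ∑ a, c a * f a i * f a j) (p t : ι → ℝ) :
    ∑ i, (∑ j, G i j * p j) * t i = ∑ a, c a * ((∑ j, f a j * p j) * (∑ i, f a i * t i)) := by
  simp only [hG, Finset.sum_mul, Finset.mul_sum]
  rw [Finset.sum_comm]
  refine Eq.trans (Finset.sum_congr rfl fun j _ => Finset.sum_comm) ?_
  rw [Finset.sum_comm]
  refine Finset.sum_congr rfl fun a _ => ?_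
  rw [Finset.sum_comm]
  exact Finset.sum_congr rfl fun i _ => Finset.sum_congr rfl fun j _ => by ring

def ev2 {n : ℕ} (t : Fin n → Fin n → ℝ) (u v : V n) : ℝ := ∑ i, ∑ j, u i * v j * t i j

def ev4 {n : ℕ} (t : Fin n → Fin n → Fin n → Fin n → ℝ) (u v w z : V n) : ℝ :=
  ∑ i, ∑ j, ∑ k, ∑ l, u i * v j * w k * z l * t i j k l

lemma sum4 {n : ℕ} (A B C D : Fin n → ℝ) : (∑ a, A a) * (∑ a, B a) * (∑ a, C a) * (∑ a, D a) =
    ∑ a, ∑ b, ∑ c, ∑ d, A a * B b * C c * D d := by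
  rw [Finset.sum_mul_sum, Finset.sum_mul, Finset.sum_mul]
  refine Finset.sum_congr rfl fun a _ => ?_
  rw [Finset.sum_mul, Finset.sum_mul]
  refine Finset.sum_congr rfl fun b _ => ?_
  rw [mul_assoc, Finset.sum_mul_sum, Finset.mul_sum]
  refine Finset.sum_congr rfl fun c _ => ?_
  rw [Finset.mul_sum]
  exact Finset.sum_congr rfl fun d _ => by ring

lemma contr4 {n : ℕ} (G : Matrix (Fin n) (Fin n) ℝ) (c : Fin n → ℝ) (f : Fin n → V n)
    (hG : ∀ i j, G i j = ∑ a, c a * f a i * f a j) (p t : Fin n → Fin n → Fin n → Fin n → ℝ) :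
    ∑ i, ∑ j, ∑ k, ∑ l, (∑ a, ∑ b, ∑ c, ∑ d, G i a * G j b * G k c * G l d * p a b c d) * t i j k l
      = ∑ a, ∑ b, ∑ d, ∑ e, c a * c b * c d * c e *
        (ev4 p (f a) (f b) (f d) (f e) * ev4 t (f a) (f b) (f d) (f e)) := by
  have := contr (ι := Fin n × Fin n × Fin n × Fin n) (κ := Fin n × Fin n × Fin n × Fin n)
    (fun i j => G i.1 j.1 * G i.2.1 j.2.1 * G i.2.2.1 j.2.2.1 * G i.2.2.2 j.2.2.2)
    (fun a => c a.1 * c a.2.1 * c a.2.2.1 * c a.2.2.2)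
    (fun a i => f a.1 i.1 * f a.2.1 i.2.1 * f a.2.2.1 i.2.2.1 * f a.2.2.2 i.2.2.2)
    (fun i j => by
      simp only [hG, Fintype.sum_prod_type, sum4]
      refine Finset.sum_congr rfl fun _ _ => Finset.sum_congr rfl fun _ _ =>
        Finset.sum_congr rfl fun _ _ => Finset.sum_congr rfl fun _ _ => by ring)
    (fun i => p i.1 i.2.1 i.2.2.1 i.2.2.2) (fun i => t i.1 i.2.1 i.2.2.1 i.2.2.2)
  simpa only [Fintype.sum_prod_type, ev4] using this

lemma contr2 {n : ℕ} (G : Matrix (Fin n) (Fin n) ℝ) (c : Fin n → ℝ) (f : Fin n → V n)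
    (hG : ∀ i j, G i j = ∑ a, c a * f a i * f a j) (t : Fin n → Fin n → ℝ) :
    ∑ i, ∑ k, G i k * t i k = ∑ a, c a * ev2 t (f a) (f a) := by
  simp only [hG, ev2, Finset.sum_mul, Finset.mul_sum]
  refine Eq.trans (Finset.sum_congr rfl fun j _ => Finset.sum_comm) ?_
  rw [Finset.sum_comm]
  exact Finset.sum_congr rfl fun _ _ => Finset.sum_congr rfl fun _ _ =>
    Finset.sum_congr rfl fun _ _ => by ring

lemma lin_sum {n : ℕ} {φ : V n → ℝ} (h : IsLinearMap ℝ φ) (u : V n) :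
    ∑ i, u i * φ (bv i) = φ u := by
  have e : u = ∑ i, u i • bv i := by
    funext j; simp [bv, Finset.sum_apply, Pi.single_apply]
  conv_rhs => rw [e]
  have := map_sum (h.mk' φ) (fun i => u i • bv i) Finset.univ
  simp only [IsLinearMap.mk'_apply, h.map_smul, smul_eq_mul] at this
  exact this.symm

structure Lin4 {n : ℕ} (F : V n → V n → V n → V n → ℝ) : Prop where
  l1 : ∀ v w z, IsLinearMap ℝ fun u => F u v w z
  l2 : ∀ u w z, IsLinearMap ℝ fun v => F u v w z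
  l3 : ∀ u v z, IsLinearMap ℝ fun w => F u v w z
  l4 : ∀ u v w, IsLinearMap ℝ fun z => F u v w z

lemma ev4_lin {n : ℕ} {F : V n → V n → V n → V n → ℝ} (h : Lin4 F) (u v w z : V n) :
    ev4 (fun i j k l => F (bv i) (bv j) (bv k) (bv l)) u v w z = F u v w z := by
  rw [← lin_sum (h.l1 v w z), ev4]
  refine Finset.sum_congr rfl fun i _ => ?_
  rw [← lin_sum (h.l2 _ w z), Finset.mul_sum]
  refine Finset.sum_congr rfl fun j _ => ?_
  rw [← lin_sum (h.l3 _ _ z), Finset.mul_sum, Finset.mul_sum]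
  refine Finset.sum_congr rfl fun k _ => ?_
  rw [← lin_sum (h.l4 _ _ _), Finset.mul_sum, Finset.mul_sum, Finset.mul_sum]
  exact Finset.sum_congr rfl fun l _ => by ring

lemma ev2_lin {n : ℕ} {F : V n → V n → ℝ} (h1 : ∀ v, IsLinearMap ℝ fun u => F u v)
    (h2 : ∀ u, IsLinearMap ℝ fun v => F u v) (u v : V n) :
    ev2 (fun i j => F (bv i) (bv j)) u v = F u v := by
  rw [← lin_sum (h1 v), ev2]
  refine Finset.sum_congr rfl fun i _ => ?_
  rw [← lin_sum (h2 _), Finset.mul_sum]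
  exact Finset.sum_congr rfl fun l _ => by ring

lemma ev4_add {n : ℕ} (s t : Fin n → Fin n → Fin n → Fin n → ℝ) (u v w z : V n) :
    ev4 (fun i j k l => s i j k l + t i j k l) u v w z = ev4 s u v w z + ev4 t u v w z := by
  simp only [ev4, mul_add, Finset.sum_add_distrib]

lemma ev4_sub {n : ℕ} (s t : Fin n → Fin n → Fin n → Fin n → ℝ) (u v w z : V n) :
    ev4 (fun i j k l => s i j k l - t i j k l) u v w z = ev4 s u v w z - ev4 t u v w z := by
  simp only [ev4, mul_sub, Finset.sum_sub_distrib]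

lemma ev4_smul {n : ℕ} (a : ℝ) (t : Fin n → Fin n → Fin n → Fin n → ℝ) (u v w z : V n) :
    ev4 (fun i j k l => a * t i j k l) u v w z = a * ev4 t u v w z := by
  simp only [ev4, Finset.mul_sum]
  exact Finset.sum_congr rfl fun _ _ => Finset.sum_congr rfl fun _ _ =>
    Finset.sum_congr rfl fun _ _ => Finset.sum_congr rfl fun _ _ => by ring

lemma ev4_13 {n : ℕ} (s t : Fin n → Fin n → ℝ) (u v w z : V n) :
    ev4 (fun i j k l => s i k * t j l) u v w z = ev2 s u w * ev2 t v z := by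
  rw [ev4, ev2, ev2, Finset.sum_mul]
  refine Finset.sum_congr rfl fun _ _ => ?_
  rw [Finset.sum_comm, Finset.sum_mul]
  refine Finset.sum_congr rfl fun _ _ => ?_
  rw [Finset.mul_sum]
  refine Finset.sum_congr rfl fun _ _ => ?_
  rw [Finset.mul_sum]
  exact Finset.sum_congr rfl fun _ _ => by ring

lemma ev4_14 {n : ℕ} (s t : Fin n → Fin n → ℝ) (u v w z : V n) :
    ev4 (fun i j k l => s i l * t j k) u v w z = ev2 s u z * ev2 t v w := by
  rw [← ev4_13, ev4, ev4]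
  refine Finset.sum_congr rfl fun _ _ => Finset.sum_congr rfl fun _ _ => ?_
  rw [Finset.sum_comm]
  exact Finset.sum_congr rfl fun _ _ => Finset.sum_congr rfl fun _ _ => by ring

lemma ev4_P {n : ℕ} (g : Met n) (x u v w z : V n) : ev4 (Plow g x) u v w z =
    ev4 (Rm g x) u v w z + ev2 (g x) u z * ev2 (Ric g x) v w - ev2 (g x) u w * ev2 (Ric g x) v z
      - ev2 (Ric g x) u w * ev2 (g x) v z + ev2 (Ric g x) u z * ev2 (g x) v w
      + 1 / 2 * Scal g x * (ev2 (g x) u w * ev2 (g x) v z - ev2 (g x) u z * ev2 (g x) v w) := by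
  rw [← ev4_14, ← ev4_13, ← ev4_13, ← ev4_14, ← ev4_13, ← ev4_14, ← ev4_sub, ← ev4_smul,
    ← ev4_add, ← ev4_sub, ← ev4_sub, ← ev4_add, ← ev4_add]
  congr 1
  funext i j k l
  unfold Plow; ring

lemma ev2_Ric {n : ℕ} (g : Met n) (x : V n) (c : Fin n → ℝ) (f : Fin n → V n)
    (hG : ∀ i j, (g x)⁻¹ i j = ∑ a, c a * f a i * f a j) (v z : V n) :
    ev2 (Ric g x) v z = ∑ a, c a * ev4 (Rm g x) (f a) v (f a) z := by
  simp only [ev2, Ric, contr2 _ c f hG, ev4, Finset.mul_sum]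
  refine Eq.trans (Finset.sum_congr rfl fun j _ => Finset.sum_comm) ?_
  rw [Finset.sum_comm]
  refine Finset.sum_congr rfl fun a _ => ?_
  refine Eq.trans (Finset.sum_congr rfl fun j _ => Finset.sum_comm) ?_
  rw [Finset.sum_comm]
  refine Finset.sum_congr rfl fun i _ => Finset.sum_congr rfl fun j _ => ?_
  rw [Finset.sum_comm]
  exact Finset.sum_congr rfl fun _ _ => Finset.sum_congr rfl fun _ _ => by ring

lemma ev2_ip {n : ℕ} (A : Matrix (Fin n) (Fin n) ℝ) (u v : V n) : ev2 A u v = ip A u v := by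
  simp only [ev2, ip, dotProduct, Matrix.mulVec, Finset.mul_sum]
  exact Finset.sum_congr rfl fun _ _ => Finset.sum_congr rfl fun _ _ => by ring

end Pool.Agent.H.MP_c3d4b2_gt
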