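import Pool.Agent.H.MP_f5d73e_gt.Main

namespace Pool.Agent.H.MP_c3d4b2_gt

open Matrix MeasureTheory Pool.Agent.H.MP_44343f_gt
open Pool.Agent.H.MP_f5d73e_gt (dot_nonneg hd_q hd_a hd_comp dot_bv sq_le_dot abs_le_r rp)

def J (v : V 6) : V 6 := ![-v 1, v 0, -v 3, v 2, -v 5, v 4]

lemma dot6 (u v : V 6) : u ⬝ᵥ v =
    u 0 * v 0 + u 1 * v 1 + u 2 * v 2 + u 3 * v 3 + u 4 * v 4 + u 5 * v 5 := by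
  simp [dotProduct, Fin.sum_univ_six]

lemma JJ (u v : V 6) : J u ⬝ᵥ J v = u ⬝ᵥ v := by rw [dot6, dot6]; simp [J]; ring
lemma J_skew (u v : V 6) : u ⬝ᵥ J v = -(J u ⬝ᵥ v) := by rw [dot6, dot6]; simp [J]; ring
lemma J_skew' (u v : V 6) : J v ⬝ᵥ u = -(J u ⬝ᵥ v) := by rw [dotProduct_comm, J_skew]
lemma J_self (u : V 6) : J u ⬝ᵥ u = 0 := by rw [dot6]; simp [J]; ring
lemma J_self' (u : V 6) : u ⬝ᵥ J u = 0 := by rw [dot6]; simp [J]; ring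
lemma J_add (u v : V 6) : J (u + v) = J u + J v := by
  funext i; fin_cases i <;> simp [J] <;> ring
lemma J_smul (c : ℝ) (v : V 6) : J (c • v) = c • J v := by
  funext i; fin_cases i <;> simp [J]
lemma J_J (v : V 6) : J (J v) = -v := by
  funext i; fin_cases i <;> simp [J]

lemma hd_b (x w u : V 6) : HasDerivAt (fun t : ℝ => J (x + t • w) ⬝ᵥ u) (J w ⬝ᵥ u) 0 := by
  simp only [J_add, J_smul]; exact hd_a _ _ _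

structure Prof where
  a0 : ℝ → ℝ
  a1 : ℝ → ℝ
  a2 : ℝ → ℝ
  c0 : ℝ → ℝ
  c1 : ℝ → ℝ
  c2 : ℝ → ℝ
  ha0 : ∀ q, 0 ≤ q → HasDerivAt a0 (a1 q) q
  ha1 : ∀ q, 0 ≤ q → HasDerivAt a1 (a2 q) q
  hc0 : ∀ q, 0 ≤ q → HasDerivAt c0 (c1 q) q
  hc1 : ∀ q, 0 ≤ q → HasDerivAt c1 (c2 q) q
  pa : ∀ q, 0 ≤ q → 0 ≤ a0 q
  pc : ∀ q, 0 ≤ q → 0 ≤ c0 q

variable (P : Prof)

noncomputable def Prof.g : Met 6 := fun x =>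
  1 + P.a0 (x ⬝ᵥ x) • vecMulVec x x + P.c0 (x ⬝ᵥ x) • vecMulVec (J x) (J x)

def Prof.mu (q : ℝ) : ℝ := 1 + P.a0 q * q
def Prof.la (q : ℝ) : ℝ := 1 + P.c0 q * q

lemma Prof.mu_pos {q : ℝ} (hq : 0 ≤ q) : 0 < P.mu q := by
  have := P.pa q hq; unfold Prof.mu; positivity
lemma Prof.la_pos {q : ℝ} (hq : 0 ≤ q) : 0 < P.la q := by
  have := P.pc q hq; unfold Prof.la; positivity

lemma quad2 (a c : ℝ) (x m u v : V 6) :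
    u ⬝ᵥ (1 + a • vecMulVec x x + c • vecMulVec m m) *ᵥ v =
      u ⬝ᵥ v + a * (x ⬝ᵥ u * x ⬝ᵥ v) + c * (m ⬝ᵥ u * m ⬝ᵥ v) := by
  simp only [Matrix.add_mulVec, Matrix.one_mulVec, Matrix.smul_mulVec, Matrix.vecMulVec_mulVec,
    dotProduct_add, dotProduct_smul, smul_eq_mul, op_smul_eq_smul]
  rw [dotProduct_comm u x, dotProduct_comm u m]
  ring

lemma Prof.ip_g (x u v : V 6) : ip (P.g x) u v =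
    u ⬝ᵥ v + P.a0 (x ⬝ᵥ x) * (x ⬝ᵥ u * x ⬝ᵥ v) + P.c0 (x ⬝ᵥ x) * (J x ⬝ᵥ u * J x ⬝ᵥ v) :=
  quad2 _ _ _ _ _ _

lemma Prof.g_mul (x : V 6) :
    (1 + (-(P.a0 (x ⬝ᵥ x) * (P.mu (x ⬝ᵥ x))⁻¹)) • vecMulVec x x
      + (-(P.c0 (x ⬝ᵥ x) * (P.la (x ⬝ᵥ x))⁻¹)) • vecMulVec (J x) (J x)) * P.g x = 1 := by
  have h1 := P.mu_pos (dot_nonneg x)
  have h2 := P.la_pos (dot_nonneg x)
  simp only [Prof.g, add_mul, mul_add, one_mul, mul_one, Matrix.smul_mul, Matrix.mul_smul,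
    Matrix.vecMulVec_mul_vecMulVec, JJ, J_self, J_self', zero_smul, Matrix.vecMulVec_zero,
    smul_zero, add_zero, zero_add, Matrix.vecMulVec_smul, smul_smul]
  ext i j
  simp only [Matrix.add_apply, Matrix.smul_apply, smul_eq_mul]
  have e1 := mul_inv_cancel₀ h1.ne'
  have e2 := mul_inv_cancel₀ h2.ne'
  generalize (P.mu (x ⬝ᵥ x))⁻¹ = a at *
  generalize (P.la (x ⬝ᵥ x))⁻¹ = b at *
  unfold Prof.mu at e1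
  unfold Prof.la at e2
  linear_combination (-P.a0 (x ⬝ᵥ x) * vecMulVec x x i j) * e1
    - (P.c0 (x ⬝ᵥ x) * vecMulVec (J x) (J x) i j) * e2

lemma Prof.g_inv (x : V 6) : (P.g x)⁻¹ =
    1 + (-(P.a0 (x ⬝ᵥ x) * (P.mu (x ⬝ᵥ x))⁻¹)) • vecMulVec x x
      + (-(P.c0 (x ⬝ᵥ x) * (P.la (x ⬝ᵥ x))⁻¹)) • vecMulVec (J x) (J x) :=
  Matrix.inv_eq_left_inv (P.g_mul x)

noncomputable def Prof.dg (z w u v : V 6) : ℝ :=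
  2 * P.a1 (z ⬝ᵥ z) * z ⬝ᵥ w * (z ⬝ᵥ u * z ⬝ᵥ v)
    + P.a0 (z ⬝ᵥ z) * (w ⬝ᵥ u * z ⬝ᵥ v + z ⬝ᵥ u * w ⬝ᵥ v)
    + 2 * P.c1 (z ⬝ᵥ z) * z ⬝ᵥ w * (J z ⬝ᵥ u * J z ⬝ᵥ v)
    + P.c0 (z ⬝ᵥ z) * (J w ⬝ᵥ u * J z ⬝ᵥ v + J z ⬝ᵥ u * J w ⬝ᵥ v)

lemma Prof.jet : Jet P.g P.dg := by
  constructor
  · intro z
    exact Matrix.isUnit_det_of_left_inverse (P.g_mul z)
  · intro z u v; rw [P.ip_g, P.ip_g, dotProduct_comm u v]; ring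
  · intro z w u v
    simp only [P.ip_g]
    have ha := hd_comp z w (P.ha0 _ (dot_nonneg z))
    have hc := hd_comp z w (P.hc0 _ (dot_nonneg z))
    refine HasDerivAt.congr_deriv (((ha.mul ((hd_a z w u).mul (hd_a z w v))).const_add _).add
      (hc.mul ((hd_b z w u).mul (hd_b z w v)))) ?_
    simp only [Prof.dg, zero_smul, add_zero, Pi.mul_apply]; ring
  · intro z u v
    constructor
    · intro a b; simp only [Prof.dg, dotProduct_add, add_dotProduct, J_add]; ring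
    · intro a b
      simp only [Prof.dg, dotProduct_smul, smul_dotProduct, J_smul, smul_eq_mul]; ring
  · intro z w i j
    simp only [P.g_inv, Matrix.add_apply, Matrix.smul_apply, smul_eq_mul, vecMulVec_apply,
      Prof.mu, Prof.la, ← dot_bv (J _)]
    have ha := (hd_comp z w (P.ha0 _ (dot_nonneg z))).differentiableAt
    have hc := (hd_comp z w (P.hc0 _ (dot_nonneg z))).differentiableAt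
    have hq := (hd_q z w).differentiableAt
    have h1 := P.mu_pos (dot_nonneg z)
    have h2 := P.la_pos (dot_nonneg z)
    refine ((differentiableAt_const _).add ((ha.mul (((ha.mul hq).const_add 1).inv ?_)).neg.mul
      ((hd_coord z w i).differentiableAt.mul (hd_coord z w j).differentiableAt))).add
      ((hc.mul (((hc.mul hq).const_add 1).inv ?_)).neg.mul
      ((hd_b z w _).differentiableAt.mul (hd_b z w _).differentiableAt))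
    · simpa [Prof.mu] using h1.ne'
    · simpa [Prof.la] using h2.ne'

lemma Prof.Lam_eq (z u v w : V 6) : Lam P.dg z u v w =
    P.a1 (z ⬝ᵥ z) * (z ⬝ᵥ u * z ⬝ᵥ v * z ⬝ᵥ w) + P.a0 (z ⬝ᵥ z) * (u ⬝ᵥ v * z ⬝ᵥ w)
    + P.c1 (z ⬝ᵥ z) * ((z ⬝ᵥ u * J z ⬝ᵥ v + z ⬝ᵥ v * J z ⬝ᵥ u) * J z ⬝ᵥ w
      - J z ⬝ᵥ u * J z ⬝ᵥ v * z ⬝ᵥ w)
    + P.c0 (z ⬝ᵥ z) * (J z ⬝ᵥ v * J u ⬝ᵥ w + J z ⬝ᵥ u * J v ⬝ᵥ w) := by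
  simp only [Lam, Prof.dg, J_skew' u v, J_skew' u w, J_skew' v w, dotProduct_comm v u,
    dotProduct_comm w u, dotProduct_comm w v]
  ring

noncomputable def Prof.ddL (z X u v w : V 6) : ℝ :=
  2 * P.a2 (z ⬝ᵥ z) * z ⬝ᵥ X * (z ⬝ᵥ u * z ⬝ᵥ v * z ⬝ᵥ w)
  + P.a1 (z ⬝ᵥ z) * (X ⬝ᵥ u * z ⬝ᵥ v * z ⬝ᵥ w + z ⬝ᵥ u * X ⬝ᵥ v * z ⬝ᵥ w + z ⬝ᵥ u * z ⬝ᵥ v * X ⬝ᵥ w)
  + 2 * P.a1 (z ⬝ᵥ z) * z ⬝ᵥ X * (u ⬝ᵥ v * z ⬝ᵥ w) + P.a0 (z ⬝ᵥ z) * (u ⬝ᵥ v * X ⬝ᵥ w)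
  + 2 * P.c2 (z ⬝ᵥ z) * z ⬝ᵥ X * ((z ⬝ᵥ u * J z ⬝ᵥ v + z ⬝ᵥ v * J z ⬝ᵥ u) * J z ⬝ᵥ w
      - J z ⬝ᵥ u * J z ⬝ᵥ v * z ⬝ᵥ w)
  + P.c1 (z ⬝ᵥ z) * ((X ⬝ᵥ u * J z ⬝ᵥ v + z ⬝ᵥ u * J X ⬝ᵥ v + X ⬝ᵥ v * J z ⬝ᵥ u
      + z ⬝ᵥ v * J X ⬝ᵥ u) * J z ⬝ᵥ w + (z ⬝ᵥ u * J z ⬝ᵥ v + z ⬝ᵥ v * J z ⬝ᵥ u) * J X ⬝ᵥ w
      - (J X ⬝ᵥ u * J z ⬝ᵥ v * z ⬝ᵥ w + J z ⬝ᵥ u * J X ⬝ᵥ v * z ⬝ᵥ w
        + J z ⬝ᵥ u * J z ⬝ᵥ v * X ⬝ᵥ w))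
  + 2 * P.c1 (z ⬝ᵥ z) * z ⬝ᵥ X * (J z ⬝ᵥ v * J u ⬝ᵥ w + J z ⬝ᵥ u * J v ⬝ᵥ w)
  + P.c0 (z ⬝ᵥ z) * (J X ⬝ᵥ v * J u ⬝ᵥ w + J X ⬝ᵥ u * J v ⬝ᵥ w)

lemma Prof.hd_Lam (z X u v w : V 6) :
    HasDerivAt (fun t : ℝ => Lam P.dg (z + t • X) u v w) (P.ddL z X u v w) 0 := by
  simp only [P.Lam_eq]
  have ha := hd_comp z X (P.ha0 _ (dot_nonneg z))
  have hc := hd_comp z X (P.hc0 _ (dot_nonneg z))
  have ha1 := hd_comp z X (P.ha1 _ (dot_nonneg z))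
  have hc1 := hd_comp z X (P.hc1 _ (dot_nonneg z))
  have au := hd_a z X u
  have av := hd_a z X v
  have aw := hd_a z X w
  have bu := hd_b z X u
  have bv := hd_b z X v
  have bw := hd_b z X w
  refine HasDerivAt.congr_deriv ((((ha1.mul ((au.mul av).mul aw)).add
    (ha.mul (aw.const_mul _))).add (hc1.mul ((((au.mul bv).add (av.mul bu)).mul bw).sub
    ((bu.mul bv).mul aw)))).add (hc.mul ((bv.mul_const _).add (bu.mul_const _)))) ?_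
  simp only [Prof.ddL, zero_smul, add_zero, Pi.mul_apply, Pi.add_apply, Pi.sub_apply]; ring

lemma Prof.Lam_vec (z u v : V 6) : (fun l => Lam P.dg z u v (bv l)) =
    (P.a1 (z ⬝ᵥ z) * (z ⬝ᵥ u * z ⬝ᵥ v) + P.a0 (z ⬝ᵥ z) * u ⬝ᵥ v
      - P.c1 (z ⬝ᵥ z) * (J z ⬝ᵥ u * J z ⬝ᵥ v)) • z
    + (P.c1 (z ⬝ᵥ z) * (z ⬝ᵥ u * J z ⬝ᵥ v + z ⬝ᵥ v * J z ⬝ᵥ u)) • J z
    + (P.c0 (z ⬝ᵥ z) * J z ⬝ᵥ v) • J u + (P.c0 (z ⬝ᵥ z) * J z ⬝ᵥ u) • J v := by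
  funext l
  simp only [P.Lam_eq, dot_bv, Pi.smul_apply, Pi.add_apply, smul_eq_mul]
  ring

end Pool.Agent.H.MP_c3d4b2_gt
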