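import Pool.Agent.H.MP_c3d4b2_gt.Tab

namespace Pool.Agent.H.MP_c3d4b2_gt

open Matrix MeasureTheory Pool.Agent.H.MP_44343f_gt
open Pool.Agent.H.MP_f5d73e_gt (dot_nonneg hd_q hd_a hd_comp dot_bv sq_le_dot abs_le_r rp)

lemma dot_pos {n : ℕ} {v : V n} (hv : v ≠ 0) : 0 < v ⬝ᵥ v :=
  lt_of_le_of_ne (dot_nonneg v) fun h => hv (dotProduct_self_eq_zero.1 h.symm)

lemma unit_of {n : ℕ} {v : V n} (hv : v ≠ 0) :
    ((√(v ⬝ᵥ v))⁻¹ • v) ⬝ᵥ ((√(v ⬝ᵥ v))⁻¹ • v) = 1 := by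
  have h := dot_pos hv
  have h2 := Real.sqrt_pos.2 h
  rw [smul_dotProduct, dotProduct_smul, smul_eq_mul, smul_eq_mul]
  field_simp
  rw [Real.sq_sqrt h.le]

lemma exists_perp (a b c d : V 6) :
    ∃ v : V 6, v ⬝ᵥ v = 1 ∧ a ⬝ᵥ v = 0 ∧ b ⬝ᵥ v = 0 ∧ c ⬝ᵥ v = 0 ∧ d ⬝ᵥ v = 0 := by
  have hdet : (Matrix.of ![a, b, c, d, 0, 0]).det = 0 :=
    Matrix.det_eq_zero_of_row_eq_zero 5 fun j => rfl
  obtain ⟨v, hv, h⟩ := Matrix.exists_mulVec_eq_zero_iff.2 hdet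
  have h0 : a ⬝ᵥ v = 0 := congrFun h 0
  have h1 : b ⬝ᵥ v = 0 := congrFun h 1
  have h2 : c ⬝ᵥ v = 0 := congrFun h 2
  have h3 : d ⬝ᵥ v = 0 := congrFun h 3
  refine ⟨_, unit_of hv, ?_, ?_, ?_, ?_⟩ <;> simp [dotProduct_smul, *]

lemma exists_polar (x : V 6) : ∃ f : V 6, f ⬝ᵥ f = 1 ∧ x = √(x ⬝ᵥ x) • f := by
  by_cases hx : x = 0
  · exact ⟨bv 0, by simp [bv], by simp [hx]⟩
  · refine ⟨_, unit_of hx, ?_⟩
    rw [smul_smul, mul_inv_cancel₀ (Real.sqrt_pos.2 (dot_pos hx)).ne', one_smul]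

lemma exists_frame (f : V 6) (hf : f ⬝ᵥ f = 1) : ∃ e : Fin 6 → V 6,
    (∀ a, f ⬝ᵥ e a = ep a) ∧ (∀ a, J f ⬝ᵥ e a = er a) ∧
    (∀ a b, e a ⬝ᵥ e b = th a b + tp a b + tr a b) ∧ (∀ a b, J (e a) ⬝ᵥ e b = tw a b + ts a b) ∧
    ∀ (s t : ℝ) i j, (1 + s • vecMulVec f f + t • vecMulVec (J f) (J f) : Matrix _ _ ℝ) i j =
      ∑ a, (1 + s * ep a + t * er a) * e a i * e a j := by
  obtain ⟨u, hu, h1, h2, -, -⟩ := exists_perp f (J f) 0 0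
  obtain ⟨v, hv, h3, h4, h5, h6⟩ := exists_perp f (J f) u (J u)
  have k1 : u ⬝ᵥ f = 0 := by rwa [dotProduct_comm]
  have k2 : J u ⬝ᵥ f = 0 := by rw [J_skew', h2, neg_zero]
  have k3 : v ⬝ᵥ f = 0 := by rwa [dotProduct_comm]
  have k4 : J v ⬝ᵥ f = 0 := by rw [J_skew', h4, neg_zero]
  have k5 : v ⬝ᵥ u = 0 := by rwa [dotProduct_comm]
  have k6 : J v ⬝ᵥ u = 0 := by rw [J_skew', h6, neg_zero]
  have hG : ∀ a b, (![f, J f, u, J u, v, J v] a) ⬝ᵥ (![f, J f, u, J u, v, J v] b) =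
      (th a b + tp a b + tr a b : ℝ) := by
    intro a b
    fin_cases a <;> fin_cases b <;>
      simp [th, tp, tr, ep, er, JJ, J_J, J_skew, J_self, *]
  refine ⟨![f, J f, u, J u, v, J v], ?_, ?_, hG, ?_, ?_⟩
  · intro a
    fin_cases a <;> simp [ep, J_skew, J_self, *]
  · intro a
    fin_cases a <;> simp [er, JJ, J_self, *]
  · intro a b
    fin_cases a <;> fin_cases b <;>
      simp [tw, ts, ep, er, JJ, J_J, J_skew, J_self, *]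
  · intro s t i j
    have hE : Matrix.of ![f, J f, u, J u, v, J v] * (Matrix.of ![f, J f, u, J u, v, J v])ᵀ = 1 := by
      ext a b
      refine (hG a b).trans ?_
      fin_cases a <;> fin_cases b <;> simp [th, tp, tr, ep, er]
    have hE' := mul_eq_one_comm.1 hE
    have : ((Matrix.of ![f, J f, u, J u, v, J v])ᵀ * Matrix.of ![f, J f, u, J u, v, J v]) i j =
      (1 : Matrix (Fin 6) (Fin 6) ℝ) i j := by rw [hE']
    simp only [Matrix.add_apply, ← this, Matrix.mul_apply, Fin.sum_univ_six]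
    simp [ep, er, vecMulVec_apply]; ring

structure Bil (s : V 6 → V 6 → ℝ) : Prop where
  l : ∀ v, IsLinearMap ℝ fun u => s u v
  r : ∀ u, IsLinearMap ℝ fun v => s u v

lemma KN_lin {s t : V 6 → V 6 → ℝ} (hs : Bil s) (ht : Bil t) : Lin4 (KN s t) := by
  constructor <;> intros <;> constructor <;> intros <;>
    simp only [KN, (hs.l _).map_add, (hs.r _).map_add, (ht.l _).map_add, (ht.r _).map_add,
      (hs.l _).map_smul, (hs.r _).map_smul, (ht.l _).map_smul, (ht.r _).map_smul, smul_eq_mul] <;>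
    ring

lemma OM_lin {s t : V 6 → V 6 → ℝ} (hs : Bil s) (ht : Bil t) : Lin4 (OM s t) := by
  constructor <;> intros <;> constructor <;> intros <;>
    simp only [OM, KN, (hs.l _).map_add, (hs.r _).map_add, (ht.l _).map_add, (ht.r _).map_add,
      (hs.l _).map_smul, (hs.r _).map_smul, (ht.l _).map_smul, (ht.r _).map_smul, smul_eq_mul] <;>
    ring

lemma bil_all (f : V 6) : Bil (pp f) ∧ Bil (rr f) ∧ Bil (sg f) ∧ Bil (hh f) ∧ Bil (ww f) := by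
  refine ⟨?_, ?_, ?_, ?_, ?_⟩ <;> constructor <;> intros <;> constructor <;> intros <;>
    simp only [pp, rr, sg, hh, ww, J_add, J_smul, add_dotProduct, dotProduct_add, smul_dotProduct,
      dotProduct_smul, smul_eq_mul] <;> ring

variable (P : Prof)

lemma Prof.ev4_Rm (ρ : ℝ) (f : V 6) (hf : f ⬝ᵥ f = 1) (X Y W Z : V 6) :
    ev4 (Rm P.g (ρ • f)) X Y W Z = P.Rc (ρ ^ 2) f X Y W Z := by
  obtain ⟨b1, b2, b3, b4, b5⟩ := bil_all f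
  have : Rm P.g (ρ • f) = fun i j k l => P.Rc (ρ ^ 2) f (bv i) (bv j) (bv k) (bv l) := by
    funext i j k l; exact P.Rv_eq ρ f hf _ _ _ _
  rw [this]
  simp only [Prof.Rc, ev4_add, ev4_sub, ev4_smul, ev4_lin (KN_lin b1 b2), ev4_lin (KN_lin b1 b4),
    ev4_lin (KN_lin b2 b4), ev4_lin (KN_lin b4 b4), ev4_lin (OM_lin b5 b5), ev4_lin (OM_lin b3 b5)]

noncomputable def Prof.RR (q : ℝ) : T4 ℝ :=
  RT (P.kA q * (P.mu q)⁻¹ * (P.la q)⁻¹) (P.kB q * (P.mu q)⁻¹) (P.kC q * (P.la q)⁻¹) (P.kT q / 2)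
    (-P.c0 q / 2) (-P.la1 q * ((√(P.mu q))⁻¹ * (√(P.la q))⁻¹))

noncomputable def Prof.DR (ρ : ℝ) : T4 ℝ :=
  DT (2 * ρ * P.mu1 (ρ ^ 2) * (P.mu (ρ ^ 2))⁻¹ ^ 2) (P.a0 (ρ ^ 2) * ρ * (P.mu (ρ ^ 2))⁻¹)
    ((P.a0 (ρ ^ 2) - P.c0 (ρ ^ 2)) * ρ * (P.mu (ρ ^ 2))⁻¹ * (P.la (ρ ^ 2))⁻¹)
    (2 * ρ * P.la1 (ρ ^ 2) * (P.mu (ρ ^ 2))⁻¹ * (P.la (ρ ^ 2))⁻¹)
    (P.c0 (ρ ^ 2) * ρ * ((√(P.mu (ρ ^ 2)))⁻¹ * (√(P.la (ρ ^ 2)))⁻¹))

lemma Prof.frame (ρ : ℝ) (f : V 6) (hf : f ⬝ᵥ f = 1) : ∃ F : Fin 6 → V 6,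
    (∀ i j, (P.g (ρ • f))⁻¹ i j = ∑ a, 1 * F a i * F a j) ∧
    (∀ a b, ev2 (P.g (ρ • f)) (F a) (F b) = de a b) ∧
    (∀ a b c d, ev4 (Rm P.g (ρ • f)) (F a) (F b) (F c) (F d) = P.RR (ρ ^ 2) a b c d) ∧
    (∀ a b c d, f ⬝ᵥ F a * P.dg (ρ • f) (F d) (F b) (F c) = P.DR ρ a b c d) := by
  obtain ⟨e, h1, h2, h3, h4, h5⟩ := exists_frame f hf
  have hq : (ρ • f) ⬝ᵥ (ρ • f) = ρ ^ 2 := by
    rw [smul_dotProduct, dotProduct_smul, hf]; simp [sq]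
  have m0 := P.mu_pos (sq_nonneg ρ)
  have l0 := P.la_pos (sq_nonneg ρ)
  obtain ⟨r0, hr0⟩ : ∃ r0, r0 = (√(P.mu (ρ ^ 2)))⁻¹ := ⟨_, rfl⟩
  obtain ⟨r1, hr1⟩ : ∃ r1, r1 = (√(P.la (ρ ^ 2)))⁻¹ := ⟨_, rfl⟩
  have s0 : (P.mu (ρ ^ 2))⁻¹ = r0 ^ 2 := by rw [hr0, inv_pow, Real.sq_sqrt m0.le]
  have s1 : (P.la (ρ ^ 2))⁻¹ = r1 ^ 2 := by rw [hr1, inv_pow, Real.sq_sqrt l0.le]
  have t0 : (1 + P.a0 (ρ ^ 2) * ρ ^ 2) * r0 ^ 2 = 1 := by rw [← s0]; exact mul_inv_cancel₀ m0.ne'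
  have t1 : (1 + P.c0 (ρ ^ 2) * ρ ^ 2) * r1 ^ 2 = 1 := by rw [← s1]; exact mul_inv_cancel₀ l0.ne'
  obtain ⟨F, hF⟩ : ∃ F : Fin 6 → V 6, F = fun a => (![r0, r1, 1, 1, 1, 1] a) • e a := ⟨_, rfl⟩
  have k1 : ∀ a, f ⬝ᵥ F a = r0 * ep a := by
    intro a; simp only [hF, dotProduct_smul, h1]; fin_cases a <;> simp [ep]
  have k2 : ∀ a, J f ⬝ᵥ F a = r1 * er a := by
    intro a; simp only [hF, dotProduct_smul, h2]; fin_cases a <;> simp [er]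
  have k3 : ∀ a b, F a ⬝ᵥ F b = th a b + r0 ^ 2 * (ep a * ep b) + r1 ^ 2 * (er a * er b) := by
    intro a b; simp only [hF, dotProduct_smul, smul_dotProduct, h3]
    fin_cases a <;> fin_cases b <;> simp [th, tp, tr, ep, er, sq]
  have k4 : ∀ a b, J (F a) ⬝ᵥ F b = tw a b + r0 * r1 * (ep a * er b - er a * ep b) := by
    intro a b; simp only [hF, J_smul, dotProduct_smul, smul_dotProduct, h4]
    fin_cases a <;> fin_cases b <;> simp [tw, ts, ep, er, mul_comm]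
  refine ⟨F, ?_, ?_, ?_, ?_⟩
  · intro i j
    have := h5 (r0 ^ 2 - 1) (r1 ^ 2 - 1) i j
    rw [P.g_inv, hq, s0, s1]
    simp only [Matrix.add_apply, Matrix.smul_apply, vecMulVec_apply, J_smul, Pi.smul_apply,
      smul_eq_mul, Fin.sum_univ_six, hF] at this ⊢
    simp [ep, er] at this ⊢
    linear_combination this - f i * f j * t0 - J f i * J f j * t1
  · intro a b
    rw [ev2_ip, P.ip_g, hq]
    simp only [J_smul, smul_dotProduct, k1, k2, k3, smul_eq_mul]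
    have : (de a b : ℝ) = th a b + ep a * ep b + er a * er b := by
      fin_cases a <;> fin_cases b <;> simp [de, th, ep, er]
    rw [this]
    linear_combination (ep a * ep b : ℝ) * t0 + (er a * er b : ℝ) * t1
  · intro a b c d
    rw [P.ev4_Rm ρ f hf]
    simp only [Prof.Rc, Prof.RR, RT, KN, OM, pp, rr, sg, hh, ww, k1, k2, k3, k4, ← hr0, ← hr1, s0, s1,
      Pi.add_apply, Pi.smul_apply, smul_eq_mul, cst, TT, Matrix.cons_val_zero, Matrix.cons_val_one,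
      Matrix.cons_val, tp, tr, ts]
    push_cast
    ring
  · intro a b c d
    simp only [Prof.dg, hq, J_smul, smul_dotProduct, k1, k2, k3, k4, Prof.DR, DT, ← hr0, ← hr1, s0, s1,
      Pi.add_apply, Pi.smul_apply, smul_eq_mul, cst, DD, Matrix.cons_val_zero, Matrix.cons_val_one,
      Matrix.cons_val, Prof.mu1, Prof.la1]
    push_cast
    ring

lemma frame_P {g : Met 6} {x : V 6} {F : Fin 6 → V 6} {R : T4 ℝ}
    (h1 : ∀ i j, (g x)⁻¹ i j = ∑ a, 1 * F a i * F a j)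
    (h2 : ∀ a b, ev2 (g x) (F a) (F b) = de a b)
    (h3 : ∀ a b c d, ev4 (Rm g x) (F a) (F b) (F c) (F d) = R a b c d) :
    Scal g x = scT R ∧ ∀ a b c d, ev4 (Plow g x) (F a) (F b) (F c) (F d) = 1 / 2 * P2 R a b c d := by
  have hR : ∀ b d, ev2 (Ric g x) (F b) (F d) = ricT R b d := by
    intro b d
    simp only [ev2_Ric g x (fun _ => 1) F h1, h3, one_mul, ricT]
  have hS : Scal g x = scT R := by
    simp only [Scal, contr2 _ (fun _ => 1) F h1, hR, one_mul, scT]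
  refine ⟨hS, fun a b c d => ?_⟩
  simp only [ev4_P, h2, h3, hR, hS, P2]; ring

lemma Prof.Scal_eq (x : V 6) : Scal P.g x = scT (P.RR (x ⬝ᵥ x)) := by
  obtain ⟨f, hf, hx⟩ := exists_polar x
  obtain ⟨F, h1, h2, h3, -⟩ := P.frame (√(x ⬝ᵥ x)) f hf
  rw [← hx, Real.sq_sqrt (dot_nonneg x)] at *
  exact (frame_P h1 h2 h3).1

lemma Prof.L2_eq (x : V 6) : L2 P.g x = 1 / 2 * BL (P.RR (x ⬝ᵥ x)) (P.RR (x ⬝ᵥ x)) := by
  obtain ⟨f, hf, hx⟩ := exists_polar x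
  obtain ⟨F, h1, h2, h3, -⟩ := P.frame (√(x ⬝ᵥ x)) f hf
  rw [← hx, Real.sq_sqrt (dot_nonneg x)] at *
  simp only [L2, Pup]
  rw [contr4 _ (fun _ => 1) F h1]
  simp only [(frame_P h1 h2 h3).2, h3, BL, Finset.mul_sum, one_mul, mul_assoc]

lemma Prof.flux_eq (r : ℝ) :
    flux P.g r = r ^ 5 * ((sphMeas 6).real Set.univ * (1 / 2 * BL (P.RR (r ^ 2)) (P.DR r))) := by
  rw [flux, ← smul_eq_mul ((sphMeas 6).real Set.univ), ← integral_const]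
  congr 2
  funext θ
  have hf : θ.1.ofLp ⬝ᵥ θ.1.ofLp = 1 := by
    have := θ.2
    rw [mem_sphere_zero_iff_norm, EuclideanSpace.norm_eq, Real.sqrt_eq_one] at this
    simpa [dotProduct, sq] using this
  generalize θ.1.ofLp = f at hf
  obtain ⟨F, h1, h2, h3, h4⟩ := P.frame r f hf
  have hl : Lin4 fun u v w z => f ⬝ᵥ u * P.dg (r • f) z v w := by
    constructor <;> intros <;> constructor <;> intros <;>
      simp only [(P.jet.lin _ _ _).map_add, (P.jet.lin2 _ _ _).map_add, (P.jet.lin3 _ _ _).map_add,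
        (P.jet.lin _ _ _).map_smul, (P.jet.lin2 _ _ _).map_smul, (P.jet.lin3 _ _ _).map_smul,
        dotProduct_add, dotProduct_smul, smul_eq_mul] <;> ring
  have := ev4_lin hl
  simp only [dot_bv] at this
  simp only [P.jet.ld_entry, mul_comm _ (f _), Pup]
  rw [contr4 _ (fun _ => 1) F h1]
  simp only [(frame_P h1 h2 h3).2, this, h4, BL, Finset.mul_sum, one_mul, mul_assoc]

end Pool.Agent.H.MP_c3d4b2_gt
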