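import Pool.Agent.H.MP_c3d4b2_gt.Defs

namespace Pool.Agent.H.MP_c3d4b2_gt

open Matrix MeasureTheory Pool.Agent.H.MP_44343f_gt

structure Jet {n : ℕ} (g : Met n) (dg : V n → V n → V n → V n → ℝ) : Prop where
  unit : ∀ z, IsUnit (g z).det
  symm : ∀ z u v, ip (g z) u v = ip (g z) v u
  hd : ∀ z w u v, HasDerivAt (fun t : ℝ => ip (g (z + t • w)) u v) (dg z w u v) 0
  lin : ∀ z u v, IsLinearMap ℝ fun w => dg z w u v
  inv : ∀ z w i j, DifferentiableAt ℝ (fun t : ℝ => (g (z + t • w))⁻¹ i j) 0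

noncomputable def Lam {n : ℕ} (dg : V n → V n → V n → V n → ℝ) (z u v w : V n) : ℝ :=
  1 / 2 * (dg z u v w + dg z v u w - dg z w u v)

lemma ip_add_right {n : ℕ} (A : Matrix (Fin n) (Fin n) ℝ) (u v w : V n) :
    ip A u (v + w) = ip A u v + ip A u w := by simp [ip, Matrix.mulVec_add]

lemma ip_smul_right {n : ℕ} (A : Matrix (Fin n) (Fin n) ℝ) (c : ℝ) (u v : V n) :
    ip A u (c • v) = c * ip A u v := by simp [ip, Matrix.mulVec_smul]

lemma ip_add_left {n : ℕ} (A : Matrix (Fin n) (Fin n) ℝ) (u v w : V n) :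
    ip A (u + v) w = ip A u w + ip A v w := by simp [ip]

lemma ip_sub_left {n : ℕ} (A : Matrix (Fin n) (Fin n) ℝ) (u v w : V n) :
    ip A (u - v) w = ip A u w - ip A v w := by simp [ip]

lemma ip_bv {n : ℕ} (A : Matrix (Fin n) (Fin n) ℝ) (i j : Fin n) : ip A (bv i) (bv j) = A i j := by
  simp [ip, bv]

lemma ip_sum_left {n : ℕ} (A : Matrix (Fin n) (Fin n) ℝ) (u v : V n) :
    ip A u v = ∑ i, u i * ip A (bv i) v := by
  simp [ip, bv, dotProduct, Pi.single_apply]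

section
variable {n : ℕ} {g : Met n} {dg : V n → V n → V n → V n → ℝ} (h : Jet g dg)
include h

lemma Jet.ld (z w u v : V n) : lineDeriv ℝ (fun y => ip (g y) u v) z w = dg z w u v :=
  (h.hd z w u v).deriv

lemma Jet.ld_entry (z w : V n) (i j : Fin n) :
    lineDeriv ℝ (fun y => g y i j) z w = dg z w (bv i) (bv j) := by
  rw [← h.ld]; simp only [ip_bv]

lemma Jet.dsymm (z w u v : V n) : dg z w u v = dg z w v u := by
  rw [← h.ld, ← h.ld]; simp only [h.symm _ u v]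

lemma Jet.lin3 (z w u : V n) : IsLinearMap ℝ fun v => dg z w u v := by
  constructor
  · intro v v'
    have := (h.hd z w u v).add (h.hd z w u v')
    refine (h.hd z w u (v + v')).unique ?_
    simp only [ip_add_right]; exact this
  · intro c v
    have := (h.hd z w u v).const_mul c
    refine (h.hd z w u (c • v)).unique ?_
    simp only [ip_smul_right]; exact this

lemma Jet.lin2 (z w v : V n) : IsLinearMap ℝ fun u => dg z w u v := by
  simp only [h.dsymm z w _ v]; exact h.lin3 z w v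

lemma Jet.Lam_lin (z u v : V n) : IsLinearMap ℝ fun w => Lam dg z u v w := by
  constructor
  · intro w w'
    simp only [Lam, (h.lin3 _ _ _).map_add, (h.lin _ _ _).map_add]; ring
  · intro c w
    simp only [Lam, (h.lin3 _ _ _).map_smul, (h.lin _ _ _).map_smul, smul_eq_mul]; ring

lemma Jet.chr_eq (z u v : V n) : chr g z u v = (g z)⁻¹ *ᵥ fun l => Lam dg z u v (bv l) := by
  simp only [chr, h.ld, Lam]

lemma Jet.ip_chr (z u v w : V n) : ip (g z) (chr g z u v) w = Lam dg z u v w := by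
  rw [h.symm, h.chr_eq, ip, Matrix.mulVec_mulVec, Matrix.mul_nonsing_inv _ (h.unit z),
    Matrix.one_mulVec, ← lin_sum (h.Lam_lin z u v) w, dotProduct]

lemma Jet.ip_chr_chr (z X W Y Z : V n) : ip (g z) (chr g z Y Z) (chr g z X W) =
    (fun l => Lam dg z Y Z (bv l)) ⬝ᵥ (g z)⁻¹ *ᵥ fun l => Lam dg z X W (bv l) := by
  rw [h.ip_chr, ← lin_sum (h.Lam_lin z Y Z), ← h.chr_eq, dotProduct]
  exact Finset.sum_congr rfl fun _ _ => mul_comm _ _

lemma Jet.dg_split (z X u v : V n) : dg z X u v = Lam dg z X u v + Lam dg z X v u := by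
  simp only [Lam, h.dsymm z X v u, h.dsymm z u v X, h.dsymm z v u X]; ring

lemma Jet.Lam_symm (z u v w : V n) : Lam dg z u v w = Lam dg z v u w := by
  simp only [Lam, h.dsymm z w v u]; ring

lemma Jet.ip_dchr {ddL : V n → V n → V n → V n → V n → ℝ}
    (h2 : ∀ z X Y Z W, HasDerivAt (fun t : ℝ => Lam dg (z + t • X) Y Z W) (ddL z X Y Z W) 0)
    (z X Y Z W : V n) :
    ip (g z) (lineDeriv ℝ (fun y => chr g y Y Z) z X) W =
      ddL z X Y Z W - dg z X (chr g z Y Z) W := by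
  have hd : ∀ i, DifferentiableAt ℝ (fun t : ℝ => chr g (z + t • X) Y Z i) 0 := by
    intro i
    simp only [h.chr_eq, Matrix.mulVec, dotProduct]
    exact DifferentiableAt.fun_sum fun l _ =>
      (h.inv z X i l).mul (h2 z X Y Z (bv l)).differentiableAt
  have hd' : DifferentiableAt ℝ (fun t : ℝ => chr g (z + t • X) Y Z) 0 :=
    differentiableAt_pi.2 hd
  obtain ⟨c', hc'⟩ : ∃ c', c' = lineDeriv ℝ (fun y => chr g y Y Z) z X := ⟨_, rfl⟩
  have hc : HasDerivAt (fun t : ℝ => chr g (z + t • X) Y Z) c' 0 := by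
    rw [hc']; exact hd'.hasDerivAt
  rw [← hc']
  rw [hasDerivAt_pi] at hc
  have h3 : HasDerivAt (fun t : ℝ => ∑ i, chr g (z + t • X) Y Z i * ip (g (z + t • X)) (bv i) W)
      (∑ i, (c' i * ip (g (z + (0 : ℝ) • X)) (bv i) W
        + chr g (z + (0 : ℝ) • X) Y Z i * dg z X (bv i) W)) 0 :=
    HasDerivAt.fun_sum fun i _ => (hc i).mul (h.hd z X (bv i) W)
  simp only [← ip_sum_left, h.ip_chr, zero_smul, add_zero, Finset.sum_add_distrib,
    lin_sum (h.lin2 z X W)] at h3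
  rw [(h2 z X Y Z W).unique h3]; ring

lemma Jet.ip_curv {ddL : V n → V n → V n → V n → V n → ℝ}
    (h2 : ∀ z X Y Z W, HasDerivAt (fun t : ℝ => Lam dg (z + t • X) Y Z W) (ddL z X Y Z W) 0)
    (z X Y Z W : V n) :
    ip (g z) (curv g z X Y Z) W = ddL z X Y Z W - ddL z Y X Z W
      - ((fun l => Lam dg z Y Z (bv l)) ⬝ᵥ (g z)⁻¹ *ᵥ fun l => Lam dg z X W (bv l))
      + ((fun l => Lam dg z X Z (bv l)) ⬝ᵥ (g z)⁻¹ *ᵥ fun l => Lam dg z Y W (bv l)) := by
  rw [curv, ip_sub_left, ip_add_left, ip_sub_left, h.ip_dchr h2, h.ip_dchr h2, h.ip_chr, h.ip_chr,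
    h.dg_split z X, h.dg_split z Y, ← h.ip_chr_chr, ← h.ip_chr_chr, h.symm z (chr g z Y Z),
    h.symm z (chr g z X Z), h.ip_chr, h.ip_chr]
  ring

end

end Pool.Agent.H.MP_c3d4b2_gt
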