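import Pool.Agent.H.MP_c3d4b2_gt.Asym

namespace Pool.Agent.H.MP_c3d4b2_gt

open Matrix MeasureTheory Pool.Agent.H.MP_44343f_gt
open Pool.Agent.H.MP_f5d73e_gt (dot_nonneg hd_q hd_a hd_comp dot_bv sq_le_dot abs_le_r rp)

def An (mu la mu1 la1 y1 y2 : ℝ) : ℝ :=
  -(3 * la1 * la + 2 * y2 * la - y1 * la1) * mu + mu1 * (la + y1) * la

def Nf (al ga mu la mu1 la1 y1 y2 cn : ℝ) : ℝ :=
  6 * (An mu la mu1 la1 y1 y2 + 2 * mu1 * la ^ 2 + 2 * (cn + al * la ^ 2) * mu * la) * (al - ga * mu)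
    + 12 * mu1 * (cn + al * la ^ 2) * la + 3 * al ^ 2 * mu * la ^ 2 - 6 * al * ga * mu ^ 2 * la ^ 2
    + 15 * ga ^ 2 * mu ^ 3 * la ^ 2 + 12 * la1 ^ 2 * mu ^ 2 * la

def Sf (al ga mu la mu1 la1 y1 y2 cn : ℝ) : ℝ :=
  An mu la mu1 la1 y1 y2 + 4 * mu1 * la ^ 2 + 4 * (cn + al * la ^ 2) * mu * la
    + 6 * (al - ga * mu) * mu * la ^ 2

noncomputable def Ff (al ga mu la la1 cn : ℝ) : ℝ :=
  12 * ((cn + al * la ^ 2 + (al - ga * mu) * la) * al + (al - ga * mu) * (al - ga - 2 * la1) / 2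
    + la1 * ga * mu)

section
variable (P : Prof)

lemma Prof.sq_sq {q : ℝ} (hq : 0 ≤ q) :
    ((√(P.mu q))⁻¹ * (√(P.la q))⁻¹) ^ 2 = (P.mu q)⁻¹ * (P.la q)⁻¹ := by
  rw [mul_pow, inv_pow, inv_pow, Real.sq_sqrt (P.mu_pos hq).le, Real.sq_sqrt (P.la_pos hq).le]

lemma Prof.L2_form (x : V 6) (q : ℝ) (hx : x ⬝ᵥ x = q) : L2 P.g x =
    8 * Nf (P.a0 q) (P.c0 q) (P.mu q) (P.la q) (P.mu1 q) (P.la1 q) (q * P.la1 q) (q * P.la2 q)
      (P.c0 q ^ 2 * q - P.c1 q * q) / (P.mu q ^ 3 * P.la q ^ 2) := by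
  have hq : 0 ≤ q := hx ▸ dot_nonneg x
  have h1 := P.mu_pos hq
  have h2 := P.la_pos hq
  rw [P.L2_eq, hx, Prof.RR, BL_RT, mul_pow (-P.la1 q), P.sq_sq hq]
  simp only [Prof.kA, Prof.kB, Prof.kC, Prof.kT, Nf, An]
  generalize P.mu q = mu at *
  generalize P.la q = la at *
  field_simp
  ring

lemma Prof.Scal_form (x : V 6) (q : ℝ) (hx : x ⬝ᵥ x = q) : Scal P.g x =
    2 * Sf (P.a0 q) (P.c0 q) (P.mu q) (P.la q) (P.mu1 q) (P.la1 q) (q * P.la1 q) (q * P.la2 q)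
      (P.c0 q ^ 2 * q - P.c1 q * q) / (P.mu q ^ 2 * P.la q ^ 2) := by
  have hq : 0 ≤ q := hx ▸ dot_nonneg x
  have h1 := P.mu_pos hq
  have h2 := P.la_pos hq
  rw [P.Scal_eq, hx, Prof.RR, scT_RT]
  simp only [Prof.kA, Prof.kB, Prof.kC, Prof.kT, Sf, An]
  generalize P.mu q = mu at *
  generalize P.la q = la at *
  field_simp
  ring

lemma Prof.flux_form (r q : ℝ) (hx : r ^ 2 = q) : flux P.g r = (sphMeas 6).real Set.univ *
    (q ^ 3 * Ff (P.a0 q) (P.c0 q) (P.mu q) (P.la q) (P.la1 q) (P.c0 q ^ 2 * q - P.c1 q * q)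
      / (P.mu q ^ 2 * P.la q)) := by
  have hq : 0 ≤ q := hx ▸ sq_nonneg r
  have h1 := P.mu_pos hq
  have h2 := P.la_pos hq
  have h3 := P.sq_sq hq
  rw [P.flux_eq, Prof.RR, Prof.DR, BL_DT, hx]
  have h4 : q ^ 3 = r ^ 6 := by rw [← hx]; ring
  rw [h4]
  generalize (√(P.mu q))⁻¹ * (√(P.la q))⁻¹ = s at *
  have h5 : 24 * (-P.la1 q * s) * (P.c0 q * r * s) = -24 * P.la1 q * P.c0 q * r * s ^ 2 := by ring
  rw [h5, h3]
  simp only [Prof.kC, Prof.kT, Ff]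
  generalize P.mu q = mu at *
  generalize P.la q = la at *
  field_simp
  ring

lemma Prof.mass (G : ℝ → ℝ) (hG : ContinuousAt G 0) (h : ∀ q, 0 ≤ q →
    q ^ 3 * Ff (P.a0 q) (P.c0 q) (P.mu q) (P.la q) (P.la1 q) (P.c0 q ^ 2 * q - P.c1 q * q)
      / (P.mu q ^ 2 * P.la q) = G (W q)) : HasMass P.g (G 0 / 120) := by
  have h1 := (hG.tendsto.comp W_tendsto).div_const 120
  refine h1.congr fun r => ?_
  have := sph_pos
  rw [P.flux_form r _ rfl, h _ (sq_nonneg r)]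
  simp only [Function.comp_apply, Nat.factorial]
  field_simp
  norm_num
  ring

end

noncomputable def P0 : Prof where
  a0 q := 6 * W q ^ 4
  a1 q := -12 * W q ^ 6
  a2 q := 36 * W q ^ 8
  c0 q := 4 * W q ^ 3
  c1 q := -6 * W q ^ 5
  c2 q := 15 * W q ^ 7
  ha0 q hq := (((hd_W hq).pow 4).const_mul 6).congr_deriv (by norm_num; ring)
  ha1 q hq := (((hd_W hq).pow 6).const_mul (-12)).congr_deriv (by norm_num; ring)
  hc0 q hq := (((hd_W hq).pow 3).const_mul 4).congr_deriv (by norm_num; ring)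
  hc1 q hq := (((hd_W hq).pow 5).const_mul (-6)).congr_deriv (by norm_num; ring)
  pa q hq := by have := W_pos hq; positivity
  pc q hq := by have := W_pos hq; positivity

lemma P0_vals {q : ℝ} (hq : 0 ≤ q) (w : ℝ) (hw : W q = w) :
    P0.a0 q = 6 * w ^ 4 ∧ P0.c0 q = 4 * w ^ 3 ∧ P0.mu q = 1 + 6 * w ^ 2 * (1 - w ^ 2) ∧
    P0.la q = 1 + 4 * w * (1 - w ^ 2) ∧ P0.mu1 q = 6 * w ^ 4 * (2 * w ^ 2 - 1) ∧
    P0.la1 q = 2 * w ^ 3 * (3 * w ^ 2 - 1) ∧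
    q * P0.la1 q = 2 * w * (1 - w ^ 2) * (3 * w ^ 2 - 1) ∧
    q * P0.la2 q = w ^ 3 * (1 - w ^ 2) * (3 - 15 * w ^ 2) ∧
    P0.c0 q ^ 2 * q - P0.c1 q * q = (16 * w ^ 4 + 6 * w ^ 3) * (1 - w ^ 2) := by
  have h := W_sq hq
  simp only [P0, Prof.mu, Prof.la, Prof.mu1, Prof.la1, Prof.la2, hw] at h ⊢
  refine ⟨trivial, trivial, ?_, ?_, ?_, ?_, ?_, ?_, ?_⟩
  · linear_combination 6 * w ^ 2 * h
  · linear_combination 4 * w * h
  · linear_combination -12 * w ^ 4 * h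
  · linear_combination -6 * w ^ 3 * h
  · linear_combination (-6 * w ^ 3 * q + 2 * w * (3 * w ^ 2 - 1)) * h
  · linear_combination (15 * w ^ 5 * q + w ^ 3 * (3 - 15 * w ^ 2)) * h
  · linear_combination (16 * w ^ 4 + 6 * w ^ 3) * h

def NB (w : ℝ) : ℝ :=
  96 * w ^ 0 * (1 - w) ^ 17 + 1572 * w ^ 1 * (1 - w) ^ 16
    + 9912 * w ^ 2 * (1 - w) ^ 15 + 33072 * w ^ 3 * (1 - w) ^ 14
    + 109440 * w ^ 4 * (1 - w) ^ 13 + 745392 * w ^ 5 * (1 - w) ^ 12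
    + 4531320 * w ^ 6 * (1 - w) ^ 11 + 17700528 * w ^ 7 * (1 - w) ^ 10
    + 45933840 * w ^ 8 * (1 - w) ^ 9 + 82674600 * w ^ 9 * (1 - w) ^ 8
    + 104537832 * w ^ 10 * (1 - w) ^ 7 + 90957936 * w ^ 11 * (1 - w) ^ 6
    + 52162656 * w ^ 12 * (1 - w) ^ 5 + 19431792 * w ^ 13 * (1 - w) ^ 4
    + 5102184 * w ^ 14 * (1 - w) ^ 3 + 721584 * w ^ 15 * (1 - w) ^ 2
    + 46128 * w ^ 16 * (1 - w) ^ 1 + 1044 * w ^ 17 * (1 - w) ^ 0

def SB (w : ℝ) : ℝ :=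
  2 * w ^ 0 * (1 - w) ^ 13 + 96 * w ^ 1 * (1 - w) ^ 12
    + 1372 * w ^ 2 * (1 - w) ^ 11 + 10790 * w ^ 3 * (1 - w) ^ 10
    + 55670 * w ^ 4 * (1 - w) ^ 9 + 191110 * w ^ 5 * (1 - w) ^ 8
    + 428012 * w ^ 6 * (1 - w) ^ 7 + 620500 * w ^ 7 * (1 - w) ^ 6
    + 592394 * w ^ 8 * (1 - w) ^ 5 + 386268 * w ^ 9 * (1 - w) ^ 4
    + 161888 * w ^ 10 * (1 - w) ^ 3 + 27950 * w ^ 11 * (1 - w) ^ 2
    + 2038 * w ^ 12 * (1 - w) ^ 1 + 54 * w ^ 13 * (1 - w) ^ 0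

lemma P0_L2 (x : V 6) : L2 P0.g x =
    8 * (W (x ⬝ᵥ x) ^ 7 * NB (W (x ⬝ᵥ x))) / (P0.mu (x ⬝ᵥ x) ^ 3 * P0.la (x ⬝ᵥ x) ^ 2) := by
  obtain ⟨h1, h2, h3, h4, h5, h6, h7, h8, h9⟩ := P0_vals (dot_nonneg x) _ rfl
  rw [P0.L2_form x _ rfl, h9, h8, h7]
  congr 2
  rw [h1, h2, h3, h4, h5, h6]
  simp only [Nf, An, NB]; ring

lemma P0_Scal (x : V 6) : Scal P0.g x =
    2 * (W (x ⬝ᵥ x) ^ 4 * SB (W (x ⬝ᵥ x))) / (P0.mu (x ⬝ᵥ x) ^ 2 * P0.la (x ⬝ᵥ x) ^ 2) := by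
  obtain ⟨h1, h2, h3, h4, h5, h6, h7, h8, h9⟩ := P0_vals (dot_nonneg x) _ rfl
  rw [P0.Scal_form x _ rfl, h9, h8, h7]
  congr 2
  rw [h1, h2, h3, h4, h5, h6]
  simp only [Sf, An, SB]; ring

lemma NB_pos {w : ℝ} (h0 : 0 < w) (h1 : w ≤ 1) : 0 < NB w := by
  have : 0 ≤ 1 - w := by linarith
  unfold NB; positivity

lemma SB_pos {w : ℝ} (h0 : 0 < w) (h1 : w ≤ 1) : 0 < SB w := by
  have : 0 ≤ 1 - w := by linarith
  unfold SB; positivity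

lemma P0_metric : IsMetric P0.g :=
  P0.metric (contDiff_const.mul (W_smooth.pow 4)) (contDiff_const.mul (W_smooth.pow 3))

lemma Prof.integrable (P : Prof) (B : ℝ → ℝ) (hB : Continuous B)
    (ha : Continuous fun x : V 6 => P.a0 (x ⬝ᵥ x)) (hc : Continuous fun x : V 6 => P.c0 (x ⬝ᵥ x))
    (h : ∀ x, L2 P.g x =
      8 * (W (x ⬝ᵥ x) ^ 7 * B (W (x ⬝ᵥ x))) / (P.mu (x ⬝ᵥ x) ^ 3 * P.la (x ⬝ᵥ x) ^ 2)) :
    Integrable fun x => L2 P.g x * √(P.g x).det := by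
  obtain ⟨C, hC⟩ := (isCompact_Icc (a := (0 : ℝ)) (b := 1)).exists_bound_of_continuousOn
    hB.continuousOn
  have hq : Continuous fun x : V 6 => x ⬝ᵥ x := by simp only [dotProduct]; fun_prop
  have hm : Continuous fun x : V 6 => P.mu (x ⬝ᵥ x) := continuous_const.add (ha.mul hq)
  have hl : Continuous fun x : V 6 => P.la (x ⬝ᵥ x) := continuous_const.add (hc.mul hq)
  have hW := W_smooth.continuous
  refine (integrable_W.const_mul (8 * C)).mono' (Continuous.aestronglyMeasurable ?_)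
    (Filter.Eventually.of_forall fun x => ?_)
  · simp only [h, P.det_g]
    refine Continuous.mul (Continuous.div (by fun_prop) (by fun_prop) fun x => ?_) (by fun_prop)
    have := P.mu_pos (dot_nonneg x)
    have := P.la_pos (dot_nonneg x)
    positivity
  · have hx := dot_nonneg x
    have h1 : 1 ≤ P.mu (x ⬝ᵥ x) := le_add_of_nonneg_right (mul_nonneg (P.pa _ hx) hx)
    have h2 : 1 ≤ P.la (x ⬝ᵥ x) := le_add_of_nonneg_right (mul_nonneg (P.pc _ hx) hx)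
    have h3 := W_pos hx
    have h4 := hC _ ⟨h3.le, W_le hx⟩
    rw [h, P.det_g]
    generalize P.mu (x ⬝ᵥ x) = m at *
    generalize P.la (x ⬝ᵥ x) = l at *
    have h5 : √(m * l) ≤ m ^ 3 * l ^ 2 := by
      have h6 : 1 ≤ m * l := one_le_mul_of_one_le_of_one_le h1 h2
      calc √(m * l) ≤ m * l := Real.sqrt_le_iff.2 ⟨by positivity, by nlinarith⟩
        _ = (m * l) * 1 := by ring
        _ ≤ (m * l) * (m ^ 2 * l) := by
          gcongr; exact one_le_mul_of_one_le_of_one_le (one_le_pow₀ h1) h2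
        _ = _ := by ring
    rw [div_mul_eq_mul_div, mul_div_assoc, norm_mul, norm_mul, norm_mul,
      Real.norm_of_nonneg (by positivity : (0 : ℝ) ≤ 8), Real.norm_of_nonneg (pow_pos h3 7).le,
      Real.norm_of_nonneg (by positivity : 0 ≤ √(m * l) / (m ^ 3 * l ^ 2))]
    calc _ ≤ 8 * (W (x ⬝ᵥ x) ^ 7 * C) * 1 := by
          gcongr
          · exact mul_nonneg (by norm_num) (mul_nonneg (pow_pos h3 7).le ((norm_nonneg _).trans h4))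
          · exact div_le_one_of_le₀ h5 (by positivity)
      _ = _ := by ring

noncomputable def G0 (w : ℝ) : ℝ := (1 - w ^ 2) ^ 3 *
  (12 * ((((16 * w + 6) * (1 - w ^ 2) + 6 * w * (1 + 4 * w * (1 - w ^ 2)) ^ 2
    + (6 * w - 4 * (1 + 6 * w ^ 2 * (1 - w ^ 2))) * (1 + 4 * w * (1 - w ^ 2))) * (6 * w)
    + (6 * w - 4 * (1 + 6 * w ^ 2 * (1 - w ^ 2))) * (6 * w - 4 - 4 * (3 * w ^ 2 - 1)) / 2
    + 2 * (3 * w ^ 2 - 1) * 4 * (1 + 6 * w ^ 2 * (1 - w ^ 2)))))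
  / ((1 + 6 * w ^ 2 * (1 - w ^ 2)) ^ 2 * (1 + 4 * w * (1 - w ^ 2)))

lemma P0_mass : HasMass P0.g (-4 / 5) := by
  have := P0.mass G0 (by
    unfold G0
    exact ContinuousAt.div (by fun_prop) (by fun_prop) (by norm_num)) (fun q hq => by
    obtain ⟨h1, h2, h3, h4, h5, h6, h7, h8, h9⟩ := P0_vals hq _ rfl
    have h := W_sq hq
    rw [h9, h1, h2, h3, h4, h6, G0]
    congr 1
    have e : 1 - W q ^ 2 = q * W q ^ 2 := by linear_combination -h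
    rw [show (1 - W q ^ 2) ^ 3 = q ^ 3 * W q ^ 6 by rw [e]; ring]
    unfold Ff; ring)
  convert this using 1
  norm_num [G0]

theorem main : ∃ (g : Met 6) (τ m : ℝ), IsMetric g ∧ Complete g ∧ (6 - 4) / 3 < τ ∧ AF g τ ∧
    Integrable (fun x => L2 g x * √(g x).det) ∧ (∀ x, 0 < L2 g x) ∧ (∀ x, 0 < Scal g x) ∧
    HasMass g m ∧ m < 0 := by
  refine ⟨P0.g, 1, -4 / 5, P0_metric, P0.complete P0_metric, by norm_num, P0.af 36 fun q hq => ?_,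
    P0.integrable NB (by unfold NB; fun_prop) (continuous_const.mul (W_smooth.continuous.pow 4))
      (continuous_const.mul (W_smooth.continuous.pow 3)) P0_L2, fun x => ?_, fun x => ?_,
    P0_mass, by norm_num⟩
  · have h0 := W_pos hq
    have h1 := W_le hq
    simp only [P0, abs_mul, abs_pow, abs_of_pos h0]
    generalize W q = w at *
    have h3 := pow_pos h0 3
    have h5 := pow_pos h0 5
    have h7 := pow_pos h0 7
    norm_num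
    refine ⟨?_, ?_, ?_, ?_, ?_, ?_⟩ <;> nlinarith
  · have hq := dot_nonneg x
    have := NB_pos (W_pos hq) (W_le hq)
    have := W_pos hq
    have := P0.mu_pos hq
    have := P0.la_pos hq
    rw [P0_L2]; positivity
  · have hq := dot_nonneg x
    have := SB_pos (W_pos hq) (W_le hq)
    have := W_pos hq
    have := P0.mu_pos hq
    have := P0.la_pos hq
    rw [P0_Scal]; positivity

end Pool.Agent.H.MP_c3d4b2_gt
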