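import Pool.Agent.H.MP_c3d4b2_gt.Curv

namespace Pool.Agent.H.MP_c3d4b2_gt

abbrev T4 (K : Type) := Fin 6 → Fin 6 → Fin 6 → Fin 6 → K

section
variable {K : Type} [CommRing K]

def de (a b : Fin 6) : K := if a = b then 1 else 0
def ricT (R : T4 K) (b d : Fin 6) : K := ∑ a, R a b a d
def scT (R : T4 K) : K := ∑ b, ricT R b b
def P2 (R : T4 K) (a b c d : Fin 6) : K :=
  2 * (R a b c d + de a d * ricT R b c - de a c * ricT R b d - ricT R a c * de b d
    + ricT R a d * de b c) + scT R * (de a c * de b d - de a d * de b c)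
def BL (R D : T4 K) : K := ∑ a, ∑ b, ∑ c, ∑ d, P2 R a b c d * D a b c d

lemma scT_add (R S : T4 K) : scT (R + S) = scT R + scT S := by
  simp [scT, ricT, Finset.sum_add_distrib]
lemma scT_smul (k : K) (R : T4 K) : scT (k • R) = k * scT R := by
  simp [scT, ricT, Finset.mul_sum]
lemma ricT_add (R S : T4 K) (b d : Fin 6) : ricT (R + S) b d = ricT R b d + ricT S b d := by
  simp [ricT, Finset.sum_add_distrib]
lemma ricT_smul (k : K) (R : T4 K) (b d : Fin 6) : ricT (k • R) b d = k * ricT R b d := by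
  simp [ricT, Finset.mul_sum]

lemma BL_add_left (R S D : T4 K) : BL (R + S) D = BL R D + BL S D := by
  simp only [BL, ← Finset.sum_add_distrib]
  refine Finset.sum_congr rfl fun _ _ => Finset.sum_congr rfl fun _ _ =>
    Finset.sum_congr rfl fun _ _ => Finset.sum_congr rfl fun _ _ => ?_
  simp only [P2, scT_add, ricT_add, Pi.add_apply]; ring
lemma BL_smul_left (k : K) (R D : T4 K) : BL (k • R) D = k * BL R D := by
  simp only [BL, Finset.mul_sum]
  refine Finset.sum_congr rfl fun _ _ => Finset.sum_congr rfl fun _ _ =>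
    Finset.sum_congr rfl fun _ _ => Finset.sum_congr rfl fun _ _ => ?_
  simp only [P2, scT_smul, ricT_smul, Pi.smul_apply, smul_eq_mul]; ring
lemma BL_add_right (R S D : T4 K) : BL R (S + D) = BL R S + BL R D := by
  simp only [BL, ← Finset.sum_add_distrib, Pi.add_apply, mul_add]
lemma BL_smul_right (k : K) (R D : T4 K) : BL R (k • D) = k * BL R D := by
  simp only [BL, Finset.mul_sum, Pi.smul_apply, smul_eq_mul, mul_left_comm]
end

def cst (R : T4 ℤ) : T4 ℝ := fun a b c d => (R a b c d : ℝ)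

def BL' (R D : T4 ℤ) : ℤ :=
  ∑ a, ∑ b, ∑ c, ∑ d, if D a b c d = 0 then 0 else P2 R a b c d * D a b c d

lemma BL_cst (R D : T4 ℤ) : BL (cst R) (cst D) = (BL' R D : ℝ) := by
  have : BL' R D = BL R D := by
    refine Finset.sum_congr rfl fun _ _ => Finset.sum_congr rfl fun _ _ =>
      Finset.sum_congr rfl fun _ _ => Finset.sum_congr rfl fun _ _ => ?_
    split_ifs with h
    · rw [h, mul_zero]
    · rfl
  rw [this]
  simp only [BL, P2, scT, ricT, de, cst]
  push_cast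
  rfl

lemma scT_cst (R : T4 ℤ) : scT (cst R) = ((scT R : ℤ) : ℝ) := by
  simp only [scT, ricT, cst]
  push_cast
  rfl

def ep (a : Fin 6) : ℤ := if a = 0 then 1 else 0
def er (a : Fin 6) : ℤ := if a = 1 then 1 else 0
def tp (a b : Fin 6) : ℤ := ep a * ep b
def tr (a b : Fin 6) : ℤ := er a * er b
def ts (a b : Fin 6) : ℤ := ep a * er b - er a * ep b
def th (a b : Fin 6) : ℤ := if a = b ∧ 2 ≤ a.val then 1 else 0
def tw (a b : Fin 6) : ℤ :=
  if 2 ≤ a.val ∧ a.val % 2 = 0 ∧ b.val = a.val + 1 then 1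
  else if 2 ≤ b.val ∧ b.val % 2 = 0 ∧ a.val = b.val + 1 then -1 else 0

def TT : Fin 6 → T4 ℤ := ![KN tp tr, KN tp th, KN tr th, KN th th, OM tw tw, OM ts tw]

def DD : Fin 5 → T4 ℤ := ![fun a b c d => ep a * ep b * ep c * ep d,
  fun a b c d => ep a * (th d b * ep c + ep b * th d c),
  fun a b c d => ep a * (er d * er b * ep c + ep b * er d * er c),
  fun a b c d => ep a * ep d * er b * er c,
  fun a b c d => ep a * (tw d b * er c + er b * tw d c)]

def MT : Fin 6 → Fin 6 → ℤ := ![![0, 0, 0, 96, 96, 0], ![0, 0, 96, 192, 192, 0],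
  ![0, 96, 0, 192, 192, 0], ![96, 192, 192, 192, 192, 0], ![96, 192, 192, 192, 960, 0],
  ![0, 0, 0, 0, 0, 192]]

def MD : Fin 6 → Fin 5 → ℤ := ![![0, 0, 0, 0, 0], ![0, 0, 0, 0, 0], ![0, 24, 0, 0, 0],
  ![0, 48, 24, -24, 0], ![0, 48, 24, -24, 0], ![0, 0, 0, 0, -24]]

def MS : Fin 6 → ℤ := ![2, 8, 8, 24, 24, 0]

lemma hMT : ∀ i j, BL' (TT i) (TT j) = MT i j := by decide +kernel
lemma hMD : ∀ i j, BL' (TT i) (DD j) = MD i j := by decide +kernel
lemma hMS : ∀ i, scT (TT i) = MS i := by decide +kernel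

def RT (A B C T U W : ℝ) : T4 ℝ :=
  A • cst (TT 0) + B • cst (TT 1) + C • cst (TT 2) + T • cst (TT 3) + U • cst (TT 4) + W • cst (TT 5)

def DT (d0 d1 d2 d3 d4 : ℝ) : T4 ℝ :=
  d0 • cst (DD 0) + d1 • cst (DD 1) + d2 • cst (DD 2) + d3 • cst (DD 3) + d4 • cst (DD 4)

lemma BL_RT (A B C T U W : ℝ) : BL (RT A B C (T / 2) (U / 2) W) (RT A B C (T / 2) (U / 2) W) =
    16 * (6 * (A + 2 * B + 2 * C) * (T + U) + 12 * B * C + 3 * T ^ 2 + 6 * T * U + 15 * U ^ 2
      + 12 * W ^ 2) := by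
  simp only [RT, BL_add_left, BL_add_right, BL_smul_left, BL_smul_right, BL_cst, hMT]
  simp [MT]; ring

lemma BL_DT (A B C T U W d0 d1 d2 d3 d4 : ℝ) :
    BL (RT A B C (T / 2) (U / 2) W) (DT d0 d1 d2 d3 d4) =
    24 * (C + T + U) * d1 + 12 * (T + U) * (d2 - d3) - 24 * W * d4 := by
  simp only [RT, DT, BL_add_left, BL_add_right, BL_smul_left, BL_smul_right, BL_cst, hMD]
  simp [MD]; ring

lemma scT_RT (A B C T U W : ℝ) : scT (RT A B C (T / 2) (U / 2) W) =
    2 * (A + 4 * B + 4 * C + 6 * (T + U)) := by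
  simp only [RT, scT_add, scT_smul, scT_cst, hMS]
  simp [MS]; ring

end Pool.Agent.H.MP_c3d4b2_gt
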